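import Pool.Agent.H61.Rn.N3

/-! # N3b: `B` as a function of the angle

`B s = Bf (a (σ s)) (b (σ s))`; `Bf` along the solution has derivative `Bd` (`Bf_hasDerivAt`), so
`B` has derivative `Bd / fq` at `s`, continuous; period `π/3`.
Change of variables `s = φ τ`: `∫ F(φ τ) fq dτ = ∫ F(s) ds` over a period (periodicity moves the
interval `[φ 0, φ 0 + π/3]` to `[0, π/3]`). -/

set_option autoImplicit false

namespace Pool.H61.Rh

open Complex MeasureTheory

private lemma N3b_norm_pos {a b : ℂ} (h : normSq a - normSq b = 1) : 0 < ‖a‖ := by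
  rw [norm_pos_iff]
  intro h0
  rw [h0, map_zero] at h
  have := normSq_nonneg b
  linarith

private lemma N3b_norm_deriv {a : ℝ → ℂ} {a' : ℂ} {τ : ℝ} (ha : HasDerivAt a a' τ)
    (h : 0 < ‖a τ‖) : HasDerivAt (fun t => ‖a t‖) (dt (a τ) a' / ‖a τ‖) τ := by
  have hre : HasDerivAt (fun t => (a t).re) a'.re τ :=
    (reCLM.hasFDerivAt (x := a τ)).comp_hasDerivAt τ ha
  have him : HasDerivAt (fun t => (a t).im) a'.im τ :=
    (imCLM.hasFDerivAt (x := a τ)).comp_hasDerivAt τ ha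
  have hN : HasDerivAt (fun t => (a t).re * (a t).re + (a t).im * (a t).im)
      ((a'.re * (a τ).re + (a τ).re * a'.re) + (a'.im * (a τ).im + (a τ).im * a'.im)) τ :=
    (hre.mul hre).add (him.mul him)
  have h0 : (a τ).re * (a τ).re + (a τ).im * (a τ).im ≠ 0 := by
    rw [← normSq_apply, normSq_eq_norm_sq]
    positivity
  have hs := hN.sqrt h0
  have e : (fun t => ‖a t‖) = fun t => √((a t).re * (a t).re + (a t).im * (a t).im) := by
    funext t
    rw [norm_def, normSq_apply]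
  rw [e]
  have e2 : √((a τ).re * (a τ).re + (a τ).im * (a τ).im) = ‖a τ‖ := by
    rw [norm_def, normSq_apply]
  rw [e2] at hs
  refine hs.congr_deriv ?_
  unfold dt
  field_simp
  ring

theorem Bf_hasDerivAt {a b : ℝ → ℂ} {y : ℂ} {τ : ℝ}
    (ha : HasDerivAt a (I * (a τ - (starRingEnd ℂ) y * b τ)) τ)
    (hb : HasDerivAt b (I * (y * a τ - b τ)) τ) (h : normSq (a τ) - normSq (b τ) = 1) :
    HasDerivAt (fun t => Bf (a t) (b t)) (Bd (a τ) (b τ) y) τ := by
  have hpos := N3b_norm_pos h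
  have hn := (N3b_norm_deriv ha hpos).ofReal_comp
  have hc : ((‖a τ‖ : ℝ) : ℂ) ≠ 0 := by exact_mod_cast hpos.ne'
  have hd := (ha.mul hb).div hn hc
  unfold Bf
  refine hd.congr_deriv ?_
  unfold Bd fq
  have hsq : ((normSq (a τ) : ℝ) : ℂ) = (‖a τ‖ : ℂ) ^ 2 := by
    rw [normSq_eq_norm_sq]
    push_cast
    ring
  have hsq2 : (‖a τ‖ : ℂ) ^ 2 = (starRingEnd ℂ) (a τ) * a τ := by
    rw [← hsq, normSq_eq_conj_mul_self]
  have e1 : ((dt (a τ) (I * (a τ - (starRingEnd ℂ) y * b τ)) : ℝ) : ℂ) =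
      ((starRingEnd ℂ) (a τ) * (I * (a τ - (starRingEnd ℂ) y * b τ)) +
        a τ * (-I * ((starRingEnd ℂ) (a τ) - y * (starRingEnd ℂ) (b τ)))) / 2 := by
    apply Complex.ext
    · simp [dt]
      ring
    · simp [dt]
      ring
  have e2 : ((dt (y * a τ) (b τ) : ℝ) : ℂ) =
      ((starRingEnd ℂ) y * (starRingEnd ℂ) (a τ) * b τ +
        y * a τ * (starRingEnd ℂ) (b τ)) / 2 := by
    apply Complex.ext
    · simp [dt]
      ring
    · simp [dt]
      ring
  rw [ofReal_div, e1]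
  rw [show (((1 : ℝ) - ((1 : ℝ) - dt (y * a τ) (b τ) / normSq (a τ)) : ℝ) : ℂ) =
    ((dt (y * a τ) (b τ) : ℝ) : ℂ) / ((normSq (a τ) : ℝ) : ℂ) by push_cast; ring, e2, hsq]
  rw [Pi.mul_apply]
  field_simp
  rw [hsq2]
  ring

private lemma N3b_cont_a {T : ℝ} {a b y : ℝ → ℂ} (h : RS T a b y) : Continuous a :=
  continuous_iff_continuousAt.2 fun τ => (h.ha τ).continuousAt

private lemma N3b_cont_b {T : ℝ} {a b y : ℝ → ℂ} (h : RS T a b y) : Continuous b :=
  continuous_iff_continuousAt.2 fun τ => (h.hb τ).continuousAt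

private lemma N3b_cont_y {T : ℝ} {a b y : ℝ → ℂ} (h : RS T a b y) : Continuous y := by
  obtain ⟨C, hC⟩ := h.ylip
  exact hC.continuous

private lemma N3b_cont_fq {T : ℝ} {a b y : ℝ → ℂ} (h : RS T a b y) :
    Continuous (fun τ => fq (a τ) (b τ) (y τ)) := by
  have ca := N3b_cont_a h
  have cb := N3b_cont_b h
  have cy := N3b_cont_y h
  have cya : Continuous (fun τ => y τ * a τ) := cy.mul ca
  have c1 : Continuous (fun τ => dt (y τ * a τ) (b τ)) := by
    unfold dt
    exact ((continuous_re.comp cya).mul (continuous_re.comp cb)).add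
      ((continuous_im.comp cya).mul (continuous_im.comp cb))
  have c2 : Continuous (fun τ => normSq (a τ)) := continuous_normSq.comp ca
  unfold fq
  refine continuous_const.sub (c1.div c2 fun τ => ?_)
  have := N3b_norm_pos (h.hn τ)
  rw [normSq_eq_norm_sq]
  positivity

/-- change of variables over a period -/
theorem Clk.integral {T : ℝ} {a b y : ℝ → ℂ} {φ σ : ℝ → ℝ} (h : RS T a b y)
    (c : Clk T a b y φ σ) (F : ℝ → ℝ) (hF : Continuous F)
    (hp : ∀ s, F (s + Real.pi / 3) = F s) :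
    ∫ τ in (0 : ℝ)..T, F (φ τ) * fq (a τ) (b τ) (y τ) = ∫ s in (0 : ℝ)..(Real.pi / 3), F s := by
  have h1 := intervalIntegral.integral_comp_mul_deriv (a := 0) (b := T) (f := φ)
    (f' := fun τ => fq (a τ) (b τ) (y τ)) (g := F) (fun τ _ => c.dphi τ)
    (N3b_cont_fq h).continuousOn hF
  have h2 : φ T = φ 0 + Real.pi / 3 := by
    have := c.phiT 0
    rwa [zero_add] at this
  have h3 : Function.Periodic F (Real.pi / 3) := hp
  have h4 := h3.intervalIntegral_add_eq (φ 0) 0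
  rw [zero_add] at h4
  rw [← h4, ← h2]
  exact h1

theorem Clk.B_deriv {T : ℝ} {a b y : ℝ → ℂ} {φ σ : ℝ → ℝ} (h : RS T a b y)
    (c : Clk T a b y φ σ) (s : ℝ) :
    HasDerivAt (fun s => Bf (a (σ s)) (b (σ s)))
      (Bd (a (σ s)) (b (σ s)) (y (σ s)) / (fq (a (σ s)) (b (σ s)) (y (σ s)) : ℂ)) s := by
  have h1 := Bf_hasDerivAt (h.ha (σ s)) (h.hb (σ s)) (h.hn (σ s))
  have h2 := h1.scomp s (c.dsig s)
  refine h2.congr_deriv ?_
  rw [Complex.real_smul]
  push_cast
  rw [one_div, div_eq_mul_inv, mul_comm]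

theorem Clk.B_per {T : ℝ} {a b y : ℝ → ℂ} {φ σ : ℝ → ℝ} (h : RS T a b y)
    (c : Clk T a b y φ σ) (s : ℝ) :
    Bf (a (σ (s + Real.pi / 3))) (b (σ (s + Real.pi / 3))) = Bf (a (σ s)) (b (σ s)) := by
  rw [c.sigT s, h.pa, h.pb]
  unfold Bf
  rw [norm_mul, norm_ze, one_mul]
  congr 1
  calc ze * a (σ s) * ((starRingEnd ℂ) ze * b (σ s))
      = (ze * (starRingEnd ℂ) ze) * (a (σ s) * b (σ s)) := by ring
    _ = a (σ s) * b (σ s) := by rw [ze_mul_conj, one_mul]

theorem Clk.B_cont {T : ℝ} {a b y : ℝ → ℂ} {φ σ : ℝ → ℝ} (h : RS T a b y)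
    (c : Clk T a b y φ σ) :
    Continuous (fun s => Bd (a (σ s)) (b (σ s)) (y (σ s)) /
      (fq (a (σ s)) (b (σ s)) (y (σ s)) : ℂ)) := by
  have cs : Continuous σ := continuous_iff_continuousAt.2 fun s => (c.dsig s).continuousAt
  have ca := N3b_cont_a h
  have cb := N3b_cont_b h
  have cy := N3b_cont_y h
  have cf := N3b_cont_fq h
  have c0 : Continuous (fun τ => Bd (a τ) (b τ) (y τ) / (fq (a τ) (b τ) (y τ) : ℂ)) := by
    unfold Bd
    have cn : Continuous (fun τ => ((‖a τ‖ : ℝ) : ℂ)) := continuous_ofReal.comp ca.norm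
    have cfc : Continuous (fun τ => ((fq (a τ) (b τ) (y τ) : ℝ) : ℂ)) :=
      continuous_ofReal.comp cf
    have cfc1 : Continuous (fun τ => (((1 : ℝ) - fq (a τ) (b τ) (y τ) : ℝ) : ℂ)) :=
      continuous_ofReal.comp (continuous_const.sub cf)
    refine Continuous.div ((continuous_const.mul (ca.div cn fun τ => ?_)).mul
      ((ca.mul cy).sub (cfc1.mul cb))) cfc fun τ => ?_
    · have := N3b_norm_pos (h.hn τ)
      exact_mod_cast this.ne'
    · have := (h.fq_bounds τ).1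
      have h1 : fq (a τ) (b τ) (y τ) ≠ 0 := by linarith
      exact_mod_cast h1
  exact c0.comp cs

end Pool.H61.Rh
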