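import Pool.Agent.H61.Rn.N3b

/-! # N6: the area formula

Along a solution: `cr a a' + cr b b' = 1` where `a' = I (a - ȳ b)`, `b' = I (y a - b)`
(`Im (conj a a') = |a|² - Re(ȳ b conj a)`, `Im (conj b b') = Re(conj b y a) - |b|²`), and with
`a = ρ e^{iφ}`, `b = B e^{-iφ}`: `Im (conj a a') = ρ² φ'`, `Im (conj b b') = Im (conj B B') - |B|² φ'`,
so `1 = φ' + Im (conj B Bd)`, i.e. `cr (Bf a b) (Bd a b y) = 1 - fq a b y`.
Integrate over `[0, T]`: `T = π/3 + ∫₀ᵀ cr B Bd dτ = π/3 + ∫₀^{π/3} cr B B' ds` (`Clk.integral`,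
`∫₀ᵀ fq = φ T - φ 0 = π/3`). -/

set_option autoImplicit false

namespace Pool.H61.Rh

open Complex MeasureTheory

private theorem N6_cr (a b w : ℂ) (n : ℝ) (hn : n ≠ 0) :
    cr (a * b / (n : ℂ)) (I * (a / (n : ℂ)) * w) = normSq a * dt b w / n ^ 2 := by
  obtain ⟨a1, a2⟩ := a
  obtain ⟨b1, b2⟩ := b
  obtain ⟨w1, w2⟩ := w
  simp only [cr, dt, normSq_mk, mul_re, mul_im, div_ofReal_re, div_ofReal_im, I_re, I_im]
  field_simp
  ring

theorem cr_Bf_Bd {a b : ℂ} (y : ℂ) (h : normSq a - normSq b = 1) :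
    cr (Bf a b) (Bd a b y) = 1 - fq a b y := by
  have ha : 0 < normSq a := by
    have := normSq_nonneg b
    linarith
  have hn : ‖a‖ ^ 2 = normSq a := (normSq_eq_norm_sq a).symm
  have hn0 : ‖a‖ ≠ 0 := by
    intro h0
    rw [h0] at hn
    norm_num at hn
    linarith
  have hq : (1 - fq a b y) * normSq a = dt (y * a) b := by
    unfold fq
    field_simp
    ring
  unfold Bf Bd
  rw [N6_cr a b _ _ hn0, hn]
  have hd : dt b (a * y - ((1 - fq a b y : ℝ) : ℂ) * b) =
      dt (y * a) b - (1 - fq a b y) * normSq b := by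
    simp only [dt, normSq_apply, sub_re, sub_im, mul_re, mul_im, ofReal_re, ofReal_im]
    ring
  rw [hd, ← hq]
  field_simp
  linear_combination (1 - fq a b y) * h

private theorem N6_cr_div (z w : ℂ) {r : ℝ} (hr : r ≠ 0) :
    cr z (w / (r : ℂ)) * r = cr z w := by
  simp only [cr, div_ofReal_re, div_ofReal_im]
  field_simp

private theorem N6_cr_cont {f g : ℝ → ℂ} (hf : Continuous f) (hg : Continuous g) :
    Continuous fun s => cr (f s) (g s) := by
  unfold cr
  fun_prop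

theorem Clk.area {T : ℝ} {a b y : ℝ → ℂ} {φ σ : ℝ → ℝ} (h : RS T a b y)
    (c : Clk T a b y φ σ) :
    T = Real.pi / 3 + ∫ s in (0 : ℝ)..(Real.pi / 3), cr (Bf (a (σ s)) (b (σ s)))
      (Bd (a (σ s)) (b (σ s)) (y (σ s)) / (fq (a (σ s)) (b (σ s)) (y (σ s)) : ℂ)) := by
  have hB : Continuous fun s => Bf (a (σ s)) (b (σ s)) :=
    continuous_iff_continuousAt.2 fun s => (c.B_deriv h s).continuousAt
  have hF := N6_cr_cont hB (c.B_cont h)
  have hper : ∀ s, Bd (a (σ (s + Real.pi / 3))) (b (σ (s + Real.pi / 3)))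
      (y (σ (s + Real.pi / 3))) / (fq (a (σ (s + Real.pi / 3))) (b (σ (s + Real.pi / 3)))
      (y (σ (s + Real.pi / 3))) : ℂ) =
      Bd (a (σ s)) (b (σ s)) (y (σ s)) / (fq (a (σ s)) (b (σ s)) (y (σ s)) : ℂ) := by
    intro s
    have h1 : HasDerivAt (fun s => Bf (a (σ (s + Real.pi / 3))) (b (σ (s + Real.pi / 3)))) _ s :=
      (c.B_deriv h (s + Real.pi / 3)).comp_add_const s (Real.pi / 3)
    have h2 : (fun s => Bf (a (σ (s + Real.pi / 3))) (b (σ (s + Real.pi / 3)))) =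
        fun s => Bf (a (σ s)) (b (σ s)) := funext fun s => c.B_per h s
    rw [h2] at h1
    exact h1.unique (c.B_deriv h s)
  have hint := c.integral h _ hF (fun s => by
    show cr (Bf (a (σ (s + Real.pi / 3))) (b (σ (s + Real.pi / 3)))) _ = _
    rw [c.B_per h s, hper s])
  have hfq0 : ∀ τ, fq (a τ) (b τ) (y τ) ≠ 0 := by
    intro τ
    have := (h.fq_bounds τ).1
    intro h0
    rw [h0] at this
    norm_num at this
  have hca : Continuous a := continuous_iff_continuousAt.2 fun τ => (h.ha τ).continuousAt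
  have hcb : Continuous b := continuous_iff_continuousAt.2 fun τ => (h.hb τ).continuousAt
  obtain ⟨C, hC⟩ := h.ylip
  have hcy : Continuous y := hC.continuous
  have hfc : Continuous fun τ => fq (a τ) (b τ) (y τ) := by
    unfold fq dt
    refine continuous_const.sub (Continuous.div (by fun_prop) (continuous_normSq.comp hca) ?_)
    intro τ
    have h1 := h.hn τ
    have h2 := normSq_nonneg (b τ)
    intro h0
    have h0' : normSq (a τ) = 0 := h0
    linarith
  have hleft : ∫ τ in (0 : ℝ)..T, (1 - fq (a τ) (b τ) (y τ)) = T - Real.pi / 3 := by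
    have h1 : ∀ τ ∈ Set.uIcc (0 : ℝ) T,
        HasDerivAt (fun τ => τ - φ τ) (1 - fq (a τ) (b τ) (y τ)) τ :=
      fun τ _ => (hasDerivAt_id τ).sub (c.dphi τ)
    rw [intervalIntegral.integral_eq_sub_of_hasDerivAt h1
      ((continuous_const.sub hfc).intervalIntegrable _ _)]
    have h2 := c.phiT 0
    rw [zero_add] at h2
    rw [h2]
    ring
  have hcongr : ∫ τ in (0 : ℝ)..T, (1 - fq (a τ) (b τ) (y τ)) =
      ∫ τ in (0 : ℝ)..T, cr (Bf (a (σ (φ τ))) (b (σ (φ τ))))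
        (Bd (a (σ (φ τ))) (b (σ (φ τ))) (y (σ (φ τ))) /
          (fq (a (σ (φ τ))) (b (σ (φ τ))) (y (σ (φ τ))) : ℂ)) * fq (a τ) (b τ) (y τ) := by
    refine intervalIntegral.integral_congr fun τ _ => ?_
    show 1 - fq (a τ) (b τ) (y τ) = _
    rw [c.sp τ, N6_cr_div _ _ (hfq0 τ), cr_Bf_Bd _ (h.hn τ)]
  rw [← hint, ← hcongr, hleft]
  ring

end Pool.H61.Rh
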