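import Pool.Agent.H61.Rh.F1c

/-! # N4: the Fourier inequality

`β` is `C¹` with period `π/3`, `β = ∑ β_k e^{6iks}`.  Apply `parseval` (T = π/3) to
`f = e^{is} β` and to `e^{is} β'`, and the polarised form; `ck (π/3) k f = β_k`,
`ck (π/3) k (e^{is} β') = 6 i k β_k` (from `ck_deriv1` for `f`, or integration by parts):
`(3/π) ∫ (|β'|² + 6 Im (conj β β') - 72 |β|²) = ∑ ((6k)² + 6 (6k) - 72) |β_k|²`, and
`x² + 6x - 72 = (x - 6)(x + 12)` is `≥ 0` at `x = 6k`, `k ≠ 0, -1`, and `-72` at `0` and `-6`.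
(`cr z w = Im (conj z w)`.)  The identity for the cross term can be obtained from
`∫ |β' + i c β|² = ∫ |β'|² + 2c Im... + c² |β|²` with `c = 3`:
`|β' - 3iβ... |²`; indeed `|β'|² + 6 Im (conj β β') = |β' + 3 i β|² - 9 |β|²`
(`|β' + 3iβ|² = |β'|² + 9|β|² + 2 Re (conj β' 3 i β)`, `2 Re (3 i β conj β') = 6 Im (conj β β')`),
so only `parseval` for `e^{is}(β' + 3iβ)` (coefficients `i(6k+3) β_k`) and for `e^{is} β` is
needed: `(6k+3)² - 81 = (6k-6)(6k+12)`. -/

set_option autoImplicit false

namespace Pool.H61.Rh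

open Complex MeasureTheory

private lemma N4_bdd {f : ℝ → ℂ} (hf : Continuous f) {T : ℝ} (hT : 0 < T)
    (per : ∀ s, f (s + T) = f s) : ∃ C, ∀ s, ‖f s‖ ≤ C := by
  obtain ⟨C, hC⟩ := (isCompact_Icc (a := (0 : ℝ)) (b := T)).exists_bound_of_continuousOn
    hf.continuousOn
  refine ⟨C, fun s => ?_⟩
  have hp : Function.Periodic f T := per
  obtain ⟨t, ht, hft⟩ := hp.exists_mem_Ico₀ hT s
  rw [hft]
  exact hC t ⟨ht.1, ht.2.le⟩

private noncomputable def N4_E (s : ℝ) : ℂ := exp (I * ((s : ℝ) : ℂ))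

private lemma N4_E_norm (s : ℝ) : ‖N4_E s‖ = 1 := by
  rw [N4_E, mul_comm, Complex.norm_exp_ofReal_mul_I]

private lemma N4_E_cont : Continuous N4_E := by
  unfold N4_E
  fun_prop

private lemma N4_E_deriv (s : ℝ) : HasDerivAt N4_E (I * N4_E s) s := by
  have h1 : HasDerivAt (fun t : ℝ => ((t : ℝ) : ℂ)) 1 s := by
    simpa using (hasDerivAt_id s).ofReal_comp
  have h2 := (h1.const_mul I).cexp
  refine h2.congr_deriv ?_
  unfold N4_E
  ring

private lemma N4_E_per (s : ℝ) : N4_E (s + Real.pi / 3) = ze * N4_E s := by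
  unfold N4_E
  rw [ze_eq_exp, ← Complex.exp_add]
  congr 1
  push_cast
  ring

private lemma N4_ck (k : ℤ) (f : ℝ → ℂ) : ck (Real.pi / 3) k f =
    (3 / Real.pi : ℝ) * ∫ s in (0 : ℝ)..(Real.pi / 3),
      exp (-(I * (((6 * k + 1) * s : ℝ) : ℂ))) * f s := by
  unfold ck
  congr 1
  · push_cast
    rw [one_div_div]
  · apply intervalIntegral.integral_congr
    intro x _
    have hp : Real.pi / (3 * (Real.pi / 3)) = 1 := by
      have := Real.pi_ne_zero
      field_simp
    simp only [hp, one_mul]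

theorem fourier_ineq (β β1 : ℝ → ℂ) (hd : ∀ s, HasDerivAt β (β1 s) s) (hc : Continuous β1)
    (per : ∀ s, β (s + Real.pi / 3) = β s) :
    0 ≤ (∫ s in (0 : ℝ)..(Real.pi / 3), (normSq (β1 s) + 6 * cr (β s) (β1 s)
        - 72 * normSq (β s)))
      + 72 * (3 / Real.pi) * normSq (∫ s in (0 : ℝ)..(Real.pi / 3), β s)
      + 72 * (3 / Real.pi) * normSq (∫ s in (0 : ℝ)..(Real.pi / 3),
          exp (I * ((6 * s : ℝ) : ℂ)) * β s) := by
  have hpi := Real.pi_pos
  have hT : 0 < Real.pi / 3 := by positivity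
  have hβc : Continuous β := continuous_iff_continuousAt.mpr fun t => (hd t).continuousAt
  have per1 : ∀ s, β1 (s + Real.pi / 3) = β1 s := by
    intro s
    have h1 : HasDerivAt (fun t => β (t + Real.pi / 3)) (β1 (s + Real.pi / 3)) s :=
      (hd (s + Real.pi / 3)).comp_add_const s (Real.pi / 3)
    have h2 : (fun t => β (t + Real.pi / 3)) = β := funext per
    rw [h2] at h1
    exact h1.unique (hd s)
  obtain ⟨C, hC⟩ := N4_bdd hβc hT per
  obtain ⟨C1, hC1⟩ := N4_bdd hc hT per1
  have hE := N4_E_cont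
  -- the two functions
  set f : ℝ → ℂ := fun s => N4_E s * β s with hf
  set f1 : ℝ → ℂ := fun s => I * N4_E s * β s + N4_E s * β1 s with hf1
  set g : ℝ → ℂ := fun s => N4_E s * (β1 s + 3 * I * β s) with hg
  have hfc : Continuous f := hE.mul hβc
  have hf1c : Continuous f1 := ((continuous_const.mul hE).mul hβc).add (hE.mul hc)
  have hgc : Continuous g := hE.mul (hc.add (continuous_const.mul hβc))
  have hfd : ∀ s, HasDerivAt f (f1 s) s := fun s => (N4_E_deriv s).mul (hd s)
  have hqp : ∀ s, f (s + Real.pi / 3) = ze * f s := by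
    intro s
    simp only [hf, N4_E_per, per, mul_assoc]
  have hck1 : ∀ k : ℤ, ck (Real.pi / 3) k f1 =
      I * ((6 * k + 1 : ℝ) : ℂ) * ck (Real.pi / 3) k f := by
    intro k
    rw [ck_deriv1 hT f f1 hfd hf1c hqp k]
    have hp : Real.pi / (3 * (Real.pi / 3)) = 1 := by field_simp
    rw [hp, one_mul]
  have hckg : ∀ k : ℤ, ck (Real.pi / 3) k g =
      I * ((6 * k + 3 : ℝ) : ℂ) * ck (Real.pi / 3) k f := by
    intro k
    have e : ck (Real.pi / 3) k g =
        ck (Real.pi / 3) k f1 + 2 * I * ck (Real.pi / 3) k f := by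
      rw [N4_ck, N4_ck, N4_ck]
      have h3 : ∫ s in (0 : ℝ)..(Real.pi / 3), exp (-(I * (((6 * k + 1) * s : ℝ) : ℂ))) * g s =
          (∫ s in (0 : ℝ)..(Real.pi / 3), exp (-(I * (((6 * k + 1) * s : ℝ) : ℂ))) * f1 s) +
          2 * I * ∫ s in (0 : ℝ)..(Real.pi / 3), exp (-(I * (((6 * k + 1) * s : ℝ) : ℂ))) * f s := by
        rw [← intervalIntegral.integral_const_mul, ← intervalIntegral.integral_add
          (by apply Continuous.intervalIntegrable; fun_prop)
          (by apply Continuous.intervalIntegrable; fun_prop)]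
        apply intervalIntegral.integral_congr
        intro s _
        simp only [hf, hf1, hg]
        ring
      rw [h3]
      ring
    rw [e, hck1]
    push_cast
    ring
  have hnE : ∀ s, normSq (N4_E s) = 1 := by
    intro s
    rw [normSq_eq_norm_sq, N4_E_norm, one_pow]
  have P1 := parseval hT f hfc.measurable C (by
    intro s
    simp only [hf, norm_mul, N4_E_norm, one_mul]
    exact hC s)
  have P2 := parseval hT g hgc.measurable (C1 + 3 * C) (by
    intro s
    simp only [hg, norm_mul, N4_E_norm, one_mul]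
    refine (norm_add_le _ _).trans (add_le_add (hC1 s) ?_)
    rw [norm_mul, norm_mul, Complex.norm_I, mul_one]
    have h3 : ‖(3 : ℂ)‖ = 3 := by norm_num
    rw [h3]
    exact mul_le_mul_of_nonneg_left (hC s) (by norm_num))
  have P3 := P2.sub (P1.mul_left 81)
  have hterm : ∀ k : ℤ, normSq (ck (Real.pi / 3) k g) - 81 * normSq (ck (Real.pi / 3) k f) =
      ((6 * k - 6) * (6 * k + 12) : ℝ) * normSq (ck (Real.pi / 3) k f) := by
    intro k
    rw [hckg, normSq_mul, normSq_mul, normSq_I, normSq_ofReal]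
    ring
  have hint : (∫ s in (0 : ℝ)..(Real.pi / 3), normSq (g s)) -
      81 * ∫ s in (0 : ℝ)..(Real.pi / 3), normSq (f s) =
      ∫ s in (0 : ℝ)..(Real.pi / 3), (normSq (β1 s) + 6 * cr (β s) (β1 s) -
        72 * normSq (β s)) := by
    rw [← intervalIntegral.integral_const_mul, ← intervalIntegral.integral_sub
      (by apply Continuous.intervalIntegrable; exact continuous_normSq.comp hgc)
      (by
        apply Continuous.intervalIntegrable
        exact continuous_const.mul (continuous_normSq.comp hfc))]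
    apply intervalIntegral.integral_congr
    intro s _
    simp only [hf, hg, normSq_mul, hnE, one_mul]
    simp only [normSq_apply, cr, add_re, add_im, mul_re, mul_im, I_re, I_im, re_ofNat, im_ofNat]
    ring
  have hsum := sum_le_hasSum (s := ({0, -1} : Finset ℤ)) (fun k hk => by
    rw [hterm]
    refine mul_nonneg ?_ (normSq_nonneg _)
    simp only [Finset.mem_insert, Finset.mem_singleton, not_or] at hk
    rcases (by omega : 1 ≤ k ∨ k ≤ -2) with h1 | h1
    · have h2 : (1 : ℝ) ≤ (k : ℝ) := by exact_mod_cast h1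
      exact mul_nonneg (by linarith) (by linarith)
    · have h2 : (k : ℝ) ≤ -2 := by exact_mod_cast h1
      exact mul_nonneg_of_nonpos_of_nonpos (by linarith) (by linarith)) P3
  rw [Finset.sum_pair (by norm_num), hterm, hterm] at hsum
  have h0 : normSq (ck (Real.pi / 3) 0 f) = (3 / Real.pi) ^ 2 *
      normSq (∫ s in (0 : ℝ)..(Real.pi / 3), β s) := by
    rw [N4_ck, normSq_mul, normSq_ofReal]
    congr 1
    · ring
    · congr 1
      apply intervalIntegral.integral_congr
      intro s _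
      simp only [hf, N4_E]
      rw [← mul_assoc, ← Complex.exp_add]
      have e : -(I * (((6 * ((0 : ℤ) : ℝ) + 1) * s : ℝ) : ℂ)) + I * (s : ℂ) = 0 := by
        push_cast
        ring
      rw [e, Complex.exp_zero, one_mul]
  have h1 : normSq (ck (Real.pi / 3) (-1) f) = (3 / Real.pi) ^ 2 *
      normSq (∫ s in (0 : ℝ)..(Real.pi / 3), exp (I * ((6 * s : ℝ) : ℂ)) * β s) := by
    rw [N4_ck, normSq_mul, normSq_ofReal]
    congr 1
    · ring
    · congr 1
      apply intervalIntegral.integral_congr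
      intro s _
      simp only [hf, N4_E]
      rw [← mul_assoc, ← Complex.exp_add]
      have e : -(I * (((6 * ((-1 : ℤ) : ℝ) + 1) * s : ℝ) : ℂ)) + I * (s : ℂ) =
          I * ((6 * s : ℝ) : ℂ) := by
        push_cast
        ring
      rw [e]
  rw [h0, h1] at hsum
  simp only [Int.cast_zero, Int.cast_neg, Int.cast_one] at hsum
  have hfin : 1 / (Real.pi / 3) * (∫ s in (0 : ℝ)..(Real.pi / 3), normSq (g s)) -
      81 * (1 / (Real.pi / 3) * ∫ s in (0 : ℝ)..(Real.pi / 3), normSq (f s)) =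
      (3 / Real.pi) * ∫ s in (0 : ℝ)..(Real.pi / 3), (normSq (β1 s) + 6 * cr (β s) (β1 s) -
        72 * normSq (β s)) := by
    rw [← hint, one_div_div]
    ring
  rw [hfin] at hsum
  set A := ∫ s in (0 : ℝ)..(Real.pi / 3), (normSq (β1 s) + 6 * cr (β s) (β1 s) -
    72 * normSq (β s)) with hA
  set B0 := normSq (∫ s in (0 : ℝ)..(Real.pi / 3), β s) with hB0
  set B1 := normSq (∫ s in (0 : ℝ)..(Real.pi / 3), exp (I * ((6 * s : ℝ) : ℂ)) * β s) with hB1
  have h3 : 0 < 3 / Real.pi := by positivity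
  have h4 : 0 ≤ (3 / Real.pi) * (A + 72 * (3 / Real.pi) * B0 + 72 * (3 / Real.pi) * B1) := by
    nlinarith [hsum]
  exact nonneg_of_mul_nonneg_right h4 h3

end Pool.H61.Rh
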