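import Pool.Agent.H61.Rh.Dm

/-! # N0: angle clock, definitions

`a = ρ e^{iφ}`, `ρ = ‖a‖`, `ν = b / a`, `q = Re (ȳ ν)`, `p = Im (ȳ ν)`.  Along a solution of `RS`:
`φ' = 1 - q`, `ρ' = ρ p`, `ν' = i (y - 2 ν + ȳ ν²)`; `B = b e^{iφ} = a b / ‖a‖` satisfies
`B' = i ρ e^{2iφ} (y - q ν)`. -/

set_option autoImplicit false

namespace Pool.H61.Rh

open Complex MeasureTheory

/-- `φ' = 1 - Re (ȳ b / a)` -/
noncomputable def fq (a b y : ℂ) : ℝ := 1 - dt (y * a) b / normSq a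

/-- `B = b e^{iφ}` -/
noncomputable def Bf (a b : ℂ) : ℂ := a * b / (‖a‖ : ℂ)

/-- derivative of `B` along a solution -/
noncomputable def Bd (a b y : ℂ) : ℂ :=
  I * (a / (‖a‖ : ℂ)) * (a * y - ((1 - fq a b y : ℝ) : ℂ) * b)

/-- density of the functional `Φ` -/
noncomputable def phd (a b y : ℂ) : ℝ :=
  ‖a‖ * fq a b y - (1 - fq a b y) / (1 + ‖a‖)

/-- the functional `Φ` -/
noncomputable def Phi (T : ℝ) (a b y : ℝ → ℂ) : ℝ :=
  ∫ τ in (0 : ℝ)..T, phd (a τ) (b τ) (y τ)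

/-- left translation of the frame -/
noncomputable def la (κ a b : ℂ) : ℂ :=
  (Real.sqrt (1 + normSq κ) : ℂ) * a + κ * (starRingEnd ℂ) b

/-- left translation of the frame -/
noncomputable def lb (κ a b : ℂ) : ℂ :=
  (Real.sqrt (1 + normSq κ) : ℂ) * b + κ * (starRingEnd ℂ) a

end Pool.H61.Rh
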