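import Pool.Agent.H61.Rn.N0

/-! # N1a: left translates, existence of a minimising frame

`RS.left`, `RS.rotate`: direct (as the private lemma `F2b_frame` of Rh/F2b.lean, which may be
copied).  `phd_rotate`: `‖c a‖ = ‖a‖`, `dt (y c a) (c b) = dt (y a) b`.
`fq_bounds`: `|dt (y a) b| ≤ ‖y‖ ‖a‖ ‖b‖`, `‖y‖ ≤ .8887` (`dom_norm`), `‖b‖ ≤ ‖a‖`.
`exists_min`: `F κ = Phi T (la κ ..) (lb κ ..) y` is continuous in `κ` (`phd` is continuous in
`(κ, τ)`, `a ≠ 0`), and `phd = (ρ + 1/(1+ρ)) fq - 1/(1+ρ) ≥ .1113 ρ - 1`,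
`‖la κ a b‖ ≥ α ‖a‖ - ‖κ‖ ‖b‖ ≥ (1 + ‖κ‖²) / (2 α ‖a‖) = α / (2 ‖a‖)`, `α = √(1+‖κ‖²)`
(`(α ‖a‖ - ‖κ‖ ‖b‖) (α ‖a‖ + ‖κ‖ ‖b‖) = 1 + ‖κ‖² + ‖b‖²`), and `‖a‖` is bounded (periodic and
continuous), so `F κ → ∞`; take the minimum `κ₀`.  For the frame `a' = la κ₀ a b`,
`b' = lb κ₀ a b`: `la κ a' b' = c (la κ' a b)`, `lb κ a' b' = c (lb κ' a b)` with
`A = α_κ α_{κ₀} + κ conj κ₀` (`‖A‖² = 1 + ‖α_κ κ₀ + κ α_{κ₀}‖² ≥ 1`), `c = A / ‖A‖`,
`κ' = conj c (α_κ κ₀ + κ α_{κ₀})`, and `Phi` is invariant under `(a, b) ↦ (c a, c b)`. -/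

set_option autoImplicit false

namespace Pool.H61.Rh

open Complex MeasureTheory

/-- applying a real-linear map of determinant one -/
private lemma N1a_frame {T : ℝ} {a b y : ℝ → ℂ} (h : RS T a b y) (α β : ℂ)
    (hαβ : normSq α - normSq β = 1) :
    RS T (fun τ => α * a τ + β * (starRingEnd ℂ) (b τ))
      (fun τ => α * b τ + β * (starRingEnd ℂ) (a τ)) y where
  Tpos := h.Tpos
  Tlow := h.Tlow
  ha := by
    intro τ
    have h1 := (h.ha τ).const_mul α
    have h2 : HasDerivAt (fun τ => (starRingEnd ℂ) (b τ))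
        ((starRingEnd ℂ) (I * (y τ * a τ - b τ))) τ := by
      have := (h.hb τ).star
      simpa using this
    refine (h1.add (h2.const_mul β)).congr_deriv ?_
    simp only [map_mul, map_sub, conj_I]
    ring
  hb := by
    intro τ
    have h1 := (h.hb τ).const_mul α
    have h2 : HasDerivAt (fun τ => (starRingEnd ℂ) (a τ))
        ((starRingEnd ℂ) (I * (a τ - (starRingEnd ℂ) (y τ) * b τ))) τ := by
      have := (h.ha τ).star
      simpa using this
    refine (h1.add (h2.const_mul β)).congr_deriv ?_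
    simp only [map_mul, map_sub, conj_I, Complex.conj_conj]
    ring
  hn := by
    intro τ
    have h1 := h.hn τ
    have h2 : normSq (α * a τ + β * (starRingEnd ℂ) (b τ))
        - normSq (α * b τ + β * (starRingEnd ℂ) (a τ))
        = (normSq α - normSq β) * (normSq (a τ) - normSq (b τ)) := by
      simp only [normSq_apply, add_re, add_im, mul_re, mul_im, conj_re, conj_im]
      ring
    rw [h2, hαβ, h1, one_mul]
  pa := by
    intro τ
    simp only [h.pa τ, h.pb τ, map_mul, Complex.conj_conj]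
    ring
  pb := by
    intro τ
    simp only [h.pa τ, h.pb τ, map_mul]
    ring
  py := h.py
  ylip := h.ylip
  dom := h.dom
  kap := h.kap

private lemma N1a_sq (κ : ℂ) : Real.sqrt (1 + normSq κ) * Real.sqrt (1 + normSq κ) =
    1 + normSq κ :=
  Real.mul_self_sqrt (by have := normSq_nonneg κ; linarith)

theorem RS.left {T : ℝ} {a b y : ℝ → ℂ} (h : RS T a b y) (κ : ℂ) :
    RS T (fun τ => la κ (a τ) (b τ)) (fun τ => lb κ (a τ) (b τ)) y := by
  have hαβ : normSq ((Real.sqrt (1 + normSq κ) : ℝ) : ℂ) - normSq κ = 1 := by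
    rw [normSq_ofReal, N1a_sq]
    ring
  exact N1a_frame h _ κ hαβ

theorem RS.rotate {T : ℝ} {a b y : ℝ → ℂ} (h : RS T a b y) (c : ℂ) (hc : normSq c = 1) :
    RS T (fun τ => c * a τ) (fun τ => c * b τ) y where
  Tpos := h.Tpos
  Tlow := h.Tlow
  ha := by
    intro τ
    refine ((h.ha τ).const_mul c).congr_deriv ?_
    ring
  hb := by
    intro τ
    refine ((h.hb τ).const_mul c).congr_deriv ?_
    ring
  hn := by
    intro τ
    rw [normSq_mul, normSq_mul, hc, one_mul, one_mul]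
    exact h.hn τ
  pa := by
    intro τ
    rw [h.pa τ]
    ring
  pb := by
    intro τ
    rw [h.pb τ]
    ring
  py := h.py
  ylip := h.ylip
  dom := h.dom
  kap := h.kap

private lemma N1a_dt (a b y c : ℂ) (hc : normSq c = 1) :
    dt (y * (c * a)) (c * b) = dt (y * a) b := by
  have hc' : c.re * c.re + c.im * c.im = 1 := by
    rw [← normSq_apply]
    exact hc
  simp only [dt, mul_re, mul_im]
  linear_combination ((y.re * a.re - y.im * a.im) * b.re +
    (y.re * a.im + y.im * a.re) * b.im) * hc'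

private lemma N1a_fq (a b y c : ℂ) (hc : normSq c = 1) : fq (c * a) (c * b) y = fq a b y := by
  unfold fq
  rw [N1a_dt a b y c hc, normSq_mul, hc, one_mul]

private lemma N1a_norm (a c : ℂ) (hc : normSq c = 1) : ‖c * a‖ = ‖a‖ := by
  have h1 : ‖c‖ = 1 := by
    rw [normSq_eq_norm_sq] at hc
    nlinarith [norm_nonneg c]
  rw [norm_mul, h1, one_mul]

theorem phd_rotate (a b y c : ℂ) (hc : normSq c = 1) : phd (c * a) (c * b) y = phd a b y := by
  unfold phd
  rw [N1a_fq a b y c hc, N1a_norm a c hc]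

private lemma N1a_absdt (x z : ℂ) : |dt x z| ≤ ‖x‖ * ‖z‖ := by
  rw [dt_eq_re]
  calc |((starRingEnd ℂ) x * z).re| ≤ ‖(starRingEnd ℂ) x * z‖ := abs_re_le_norm _
    _ = ‖x‖ * ‖z‖ := by rw [norm_mul, RCLike.norm_conj]

private lemma N1a_pos {T : ℝ} {a b y : ℝ → ℂ} (h : RS T a b y) (τ : ℝ) :
    1 ≤ normSq (a τ) ∧ ‖b τ‖ ≤ ‖a τ‖ ∧ 1 ≤ ‖a τ‖ := by
  have h1 := h.hn τ
  have h2 := normSq_nonneg (b τ)
  have h3 : 1 ≤ normSq (a τ) := by linarith
  rw [normSq_eq_norm_sq, normSq_eq_norm_sq] at h1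
  refine ⟨h3, ?_, ?_⟩
  · exact (sq_le_sq₀ (norm_nonneg _) (norm_nonneg _)).1 (by linarith)
  · rw [normSq_eq_norm_sq] at h3
    nlinarith [norm_nonneg (a τ)]

theorem RS.fq_bounds {T : ℝ} {a b y : ℝ → ℂ} (h : RS T a b y) (τ : ℝ) :
    1113 / 10000 ≤ fq (a τ) (b τ) (y τ) ∧ fq (a τ) (b τ) (y τ) ≤ 18887 / 10000 := by
  obtain ⟨h1, h2, h3⟩ := N1a_pos h τ
  have hy := dom_norm (h.dom τ)
  have hd := N1a_absdt (y τ * a τ) (b τ)
  have hle : ‖y τ * a τ‖ * ‖b τ‖ ≤ 8887 / 10000 * normSq (a τ) := by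
    rw [norm_mul, normSq_eq_norm_sq, sq, mul_assoc]
    apply mul_le_mul hy _ (by positivity) (by norm_num)
    exact mul_le_mul_of_nonneg_left h2 (norm_nonneg _)
  have hab := abs_le.1 (hd.trans hle)
  have hpos : 0 < normSq (a τ) := by linarith
  have e1 : dt (y τ * a τ) (b τ) / normSq (a τ) ≤ 8887 / 10000 := by
    rw [div_le_iff₀ hpos]
    exact hab.2
  have e2 : -(8887 / 10000) ≤ dt (y τ * a τ) (b τ) / normSq (a τ) := by
    rw [le_div_iff₀ hpos]
    linarith [hab.1]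
  unfold fq
  constructor <;> linarith

/-- continuity of the density in the frame parameter and the time -/
private lemma N1a_cont {T : ℝ} {a b y : ℝ → ℂ} (h : RS T a b y) :
    Continuous (Function.uncurry fun (κ : ℂ) (τ : ℝ) =>
      phd (la κ (a τ) (b τ)) (lb κ (a τ) (b τ)) (y τ)) := by
  have hac : Continuous a := continuous_iff_continuousAt.mpr (fun t => (h.ha t).continuousAt)
  have hbc : Continuous b := continuous_iff_continuousAt.mpr (fun t => (h.hb t).continuousAt)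
  obtain ⟨C, hC⟩ := h.ylip
  have hyc : Continuous y := hC.continuous
  have h1 : Continuous fun p : ℂ × ℝ => la p.1 (a p.2) (b p.2) := by
    unfold la
    have e1 : Continuous fun p : ℂ × ℝ => a p.2 := hac.comp continuous_snd
    have e2 : Continuous fun p : ℂ × ℝ => (starRingEnd ℂ) (b p.2) :=
      continuous_conj.comp (hbc.comp continuous_snd)
    have e3 : Continuous fun p : ℂ × ℝ => ((Real.sqrt (1 + normSq p.1) : ℝ) : ℂ) :=
      continuous_ofReal.comp (Real.continuous_sqrt.comp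
        (continuous_const.add (continuous_normSq.comp continuous_fst)))
    exact (e3.mul e1).add (continuous_fst.mul e2)
  have h2 : Continuous fun p : ℂ × ℝ => lb p.1 (a p.2) (b p.2) := by
    unfold lb
    have e1 : Continuous fun p : ℂ × ℝ => b p.2 := hbc.comp continuous_snd
    have e2 : Continuous fun p : ℂ × ℝ => (starRingEnd ℂ) (a p.2) :=
      continuous_conj.comp (hac.comp continuous_snd)
    have e3 : Continuous fun p : ℂ × ℝ => ((Real.sqrt (1 + normSq p.1) : ℝ) : ℂ) :=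
      continuous_ofReal.comp (Real.continuous_sqrt.comp
        (continuous_const.add (continuous_normSq.comp continuous_fst)))
    exact (e3.mul e1).add (continuous_fst.mul e2)
  have h3 : Continuous fun p : ℂ × ℝ => y p.2 := hyc.comp continuous_snd
  have hne : ∀ p : ℂ × ℝ, normSq (la p.1 (a p.2) (b p.2)) ≠ 0 := by
    intro p
    have := (N1a_pos (h.left p.1) p.2).1
    exact (lt_of_lt_of_le one_pos this).ne'
  have h4 : Continuous fun p : ℂ × ℝ =>
      fq (la p.1 (a p.2) (b p.2)) (lb p.1 (a p.2) (b p.2)) (y p.2) := by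
    unfold fq
    refine continuous_const.sub (Continuous.div ?_ (continuous_normSq.comp h1) hne)
    unfold dt
    have k1 := h3.mul h1
    exact ((continuous_re.comp k1).mul (continuous_re.comp h2)).add
      ((continuous_im.comp k1).mul (continuous_im.comp h2))
  show Continuous fun p : ℂ × ℝ => phd (la p.1 (a p.2) (b p.2)) (lb p.1 (a p.2) (b p.2)) (y p.2)
  unfold phd
  refine (h1.norm.mul h4).sub ((continuous_const.sub h4).div (continuous_const.add h1.norm) ?_)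
  intro p
  have := norm_nonneg (la p.1 (a p.2) (b p.2))
  positivity

/-- lower bound of the translated frame -/
private lemma N1a_low {T : ℝ} {a b y : ℝ → ℂ} (h : RS T a b y) (κ : ℂ) (τ : ℝ) :
    ‖κ‖ / (2 * ‖a τ‖) ≤ ‖la κ (a τ) (b τ)‖ := by
  obtain ⟨h1, h2, h3⟩ := N1a_pos h τ
  have hn := h.hn τ
  rw [normSq_eq_norm_sq, normSq_eq_norm_sq] at hn
  set α : ℝ := Real.sqrt (1 + normSq κ) with hα
  have hα0 : 0 ≤ α := Real.sqrt_nonneg _
  have hα2 : α * α = 1 + ‖κ‖ ^ 2 := by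
    rw [hα, N1a_sq, normSq_eq_norm_sq]
  have hκ0 := norm_nonneg κ
  have hακ : ‖κ‖ ≤ α := by nlinarith
  have hb0 := norm_nonneg (b τ)
  have e1 : α * ‖a τ‖ - ‖κ‖ * ‖b τ‖ ≤ ‖la κ (a τ) (b τ)‖ := by
    unfold la
    have := norm_sub_le_norm_add ((α : ℂ) * a τ) (κ * (starRingEnd ℂ) (b τ))
    rw [norm_mul, norm_mul, RCLike.norm_conj, norm_real, Real.norm_of_nonneg hα0] at this
    exact this
  refine le_trans ?_ e1
  rw [div_le_iff₀ (by positivity)]
  -- `‖κ‖ ≤ 2 ‖a‖ (α ‖a‖ - ‖κ‖ ‖b‖)`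
  have e2 : 2 * ‖a τ‖ * ‖b τ‖ ≤ 1 + 2 * ‖b τ‖ ^ 2 := by
    have : (2 * ‖a τ‖ * ‖b τ‖) ^ 2 ≤ (1 + 2 * ‖b τ‖ ^ 2) ^ 2 := by
      have e : (1 + 2 * ‖b τ‖ ^ 2) ^ 2 - (2 * ‖a τ‖ * ‖b τ‖) ^ 2 =
        1 + 4 * ‖b τ‖ ^ 2 * (1 + ‖b τ‖ ^ 2 - ‖a τ‖ ^ 2) := by ring
      have e' : 1 + ‖b τ‖ ^ 2 - ‖a τ‖ ^ 2 = 0 := by linarith
      rw [e', mul_zero] at e
      linarith
    exact abs_le_of_sq_le_sq' this (by positivity) |>.2
  have e3 : ‖κ‖ * (2 * ‖a τ‖ * ‖b τ‖) ≤ α * (1 + 2 * ‖b τ‖ ^ 2) :=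
    mul_le_mul hακ e2 (by positivity) hα0
  have e4 : ‖a τ‖ ^ 2 = 1 + ‖b τ‖ ^ 2 := by linarith
  have e5 : (α * ‖a τ‖ - ‖κ‖ * ‖b τ‖) * (2 * ‖a τ‖) =
      2 * α * ‖a τ‖ ^ 2 - ‖κ‖ * (2 * ‖a τ‖ * ‖b τ‖) := by ring
  rw [e5, e4]
  nlinarith

/-- composition of two left translations -/
private lemma N1a_comp (κ κ₀ : ℂ) : ∃ c κ' : ℂ, normSq c = 1 ∧
    ∀ a b : ℂ, la κ (la κ₀ a b) (lb κ₀ a b) = c * la κ' a b ∧
      lb κ (la κ₀ a b) (lb κ₀ a b) = c * lb κ' a b := by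
  set α : ℝ := Real.sqrt (1 + normSq κ) with hα
  set α₀ : ℝ := Real.sqrt (1 + normSq κ₀) with hα₀
  have hα2 : α * α = 1 + normSq κ := by rw [hα, N1a_sq]
  have hα₀2 : α₀ * α₀ = 1 + normSq κ₀ := by rw [hα₀, N1a_sq]
  set A : ℂ := (α : ℂ) * α₀ + κ * (starRingEnd ℂ) κ₀ with hA
  set D : ℂ := (α : ℂ) * κ₀ + κ * α₀ with hD
  have hAD : normSq A = 1 + normSq D := by
    rw [normSq_apply] at hα2 hα₀2
    rw [hA, hD, normSq_apply, normSq_apply]
    simp only [add_re, add_im, mul_re, mul_im, conj_re, conj_im, ofReal_re, ofReal_im]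
    linear_combination (1 + κ₀.re * κ₀.re + κ₀.im * κ₀.im - (κ₀.re * κ₀.re + κ₀.im * κ₀.im)) *
      hα2 + (α * α - (κ.re * κ.re + κ.im * κ.im)) * hα₀2
  have hA1 : 1 ≤ normSq A := by
    rw [hAD]
    have := normSq_nonneg D
    linarith
  have hAn : ‖A‖ * ‖A‖ = normSq A := by rw [normSq_eq_norm_sq, sq]
  have hApos : 0 < ‖A‖ := by
    rcases (norm_nonneg A).lt_or_eq with h | h
    · exact h
    · rw [← h] at hAn
      linarith
  have hA0 : (‖A‖ : ℂ) ≠ 0 := by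
    rw [Ne, ofReal_eq_zero]
    exact hApos.ne'
  set c : ℂ := A / (‖A‖ : ℂ) with hc
  have hc1 : normSq c = 1 := by
    rw [hc, normSq_div, normSq_ofReal, hAn, div_self (by linarith)]
  have hcc : c * (starRingEnd ℂ) c = 1 := by
    rw [mul_conj, hc1, ofReal_one]
  have hsq : Real.sqrt (1 + normSq ((starRingEnd ℂ) c * D)) = ‖A‖ := by
    rw [normSq_mul, normSq_conj, hc1, one_mul, ← hAD, ← hAn, Real.sqrt_mul_self hApos.le]
  have hcA : c * (‖A‖ : ℂ) = A := by
    rw [hc, div_mul_cancel₀ _ hA0]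
  refine ⟨c, (starRingEnd ℂ) c * D, hc1, ?_⟩
  intro a b
  constructor
  · unfold la lb
    rw [hsq, ← hα, ← hα₀]
    have e1 : c * ((‖A‖ : ℂ) * a + (starRingEnd ℂ) c * D * (starRingEnd ℂ) b) =
        (c * (‖A‖ : ℂ)) * a + (c * (starRingEnd ℂ) c) * (D * (starRingEnd ℂ) b) := by ring
    rw [e1, hcA, hcc, one_mul, hA, hD]
    simp only [map_add, map_mul, Complex.conj_conj, conj_ofReal]
    ring
  · unfold la lb
    rw [hsq, ← hα, ← hα₀]
    have e1 : c * ((‖A‖ : ℂ) * b + (starRingEnd ℂ) c * D * (starRingEnd ℂ) a) =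
        (c * (‖A‖ : ℂ)) * b + (c * (starRingEnd ℂ) c) * (D * (starRingEnd ℂ) a) := by ring
    rw [e1, hcA, hcc, one_mul, hA, hD]
    simp only [map_add, map_mul, Complex.conj_conj, conj_ofReal]
    ring

theorem RS.exists_min {T : ℝ} {a b y : ℝ → ℂ} (h : RS T a b y) :
    ∃ a' b' : ℝ → ℂ, RS T a' b' y ∧ ∀ κ : ℂ, Phi T a' b' y ≤
      Phi T (fun τ => la κ (a' τ) (b' τ)) (fun τ => lb κ (a' τ) (b' τ)) y := by
  have hT := h.Tpos
  have hcont := N1a_cont h
  set F : ℂ → ℝ := fun κ => Phi T (fun τ => la κ (a τ) (b τ)) (fun τ => lb κ (a τ) (b τ)) y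
    with hF
  have hFc : Continuous F :=
    intervalIntegral.continuous_parametric_intervalIntegral_of_continuous' hcont 0 T
  -- boundedness of `a`
  have hac : Continuous a := continuous_iff_continuousAt.mpr (fun t => (h.ha t).continuousAt)
  obtain ⟨M, hM⟩ := (isCompact_Icc (a := (0 : ℝ)) (b := T)).exists_bound_of_continuousOn
    hac.continuousOn
  have hM1 : 1 ≤ M := (N1a_pos h 0).2.2.trans (hM 0 ⟨le_refl _, hT.le⟩)
  -- lower bound of the functional
  have hlow : ∀ κ : ℂ, T * (1113 / 10000 * (‖κ‖ / (2 * M)) - 1) ≤ F κ := by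
    intro κ
    have hcκ : Continuous fun τ : ℝ => phd (la κ (a τ) (b τ)) (lb κ (a τ) (b τ)) (y τ) :=
      Continuous.uncurry_left κ hcont
    have h1 : ∫ τ in (0 : ℝ)..T, (1113 / 10000 * (‖κ‖ / (2 * M)) - 1) ≤
        ∫ τ in (0 : ℝ)..T, phd (la κ (a τ) (b τ)) (lb κ (a τ) (b τ)) (y τ) := by
      apply intervalIntegral.integral_mono_on hT.le
      · exact intervalIntegrable_const
      · exact hcκ.intervalIntegrable _ _
      · intro τ hτ
        have hf := (h.left κ).fq_bounds τ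
        have hp := N1a_pos (h.left κ) τ
        have hl := N1a_low h κ τ
        have hMτ := hM τ hτ
        have ha1 := (N1a_pos h τ).2.2
        have hl2 : ‖κ‖ / (2 * M) ≤ ‖la κ (a τ) (b τ)‖ := by
          refine le_trans ?_ hl
          apply div_le_div_of_nonneg_left (norm_nonneg κ) (by linarith)
          linarith
        set ρ : ℝ := ‖la κ (a τ) (b τ)‖ with hρ
        set f : ℝ := fq (la κ (a τ) (b τ)) (lb κ (a τ) (b τ)) (y τ) with hfdef
        have hρ1 : 1 ≤ ρ := hp.2.2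
        have e1 : (1 - f) / (1 + ρ) ≤ 1 := by
          rw [div_le_one (by linarith)]
          linarith [hf.1]
        have e2 : 1113 / 10000 * (‖κ‖ / (2 * M)) ≤ ρ * f := by
          calc 1113 / 10000 * (‖κ‖ / (2 * M)) ≤ 1113 / 10000 * ρ :=
                mul_le_mul_of_nonneg_left hl2 (by norm_num)
            _ = ρ * (1113 / 10000) := by ring
            _ ≤ ρ * f := mul_le_mul_of_nonneg_left hf.1 (by linarith)
        show 1113 / 10000 * (‖κ‖ / (2 * M)) - 1 ≤ ρ * f - (1 - f) / (1 + ρ)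
        linarith
    rw [intervalIntegral.integral_const, smul_eq_mul, sub_zero] at h1
    exact h1
  have hlim : Filter.Tendsto F (Filter.cocompact ℂ) Filter.atTop := by
    refine Filter.tendsto_atTop_mono hlow ?_
    have h1 : Filter.Tendsto (fun κ : ℂ => ‖κ‖) (Filter.cocompact ℂ) Filter.atTop :=
      tendsto_norm_cocompact_atTop
    have h2 : Filter.Tendsto (fun x : ℝ => T * (1113 / 10000 * (x / (2 * M)) - 1))
        Filter.atTop Filter.atTop := by
      apply Filter.Tendsto.const_mul_atTop hT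
      apply Filter.tendsto_atTop_add_const_right
      apply Filter.Tendsto.const_mul_atTop (by norm_num)
      exact Filter.Tendsto.atTop_div_const (by linarith) Filter.tendsto_id
    exact h2.comp h1
  obtain ⟨κ₀, hκ₀⟩ := hFc.exists_forall_le hlim
  refine ⟨_, _, h.left κ₀, ?_⟩
  intro κ
  obtain ⟨c, κ', hc1, hcomp⟩ := N1a_comp κ κ₀
  have e : Phi T (fun τ => la κ (la κ₀ (a τ) (b τ)) (lb κ₀ (a τ) (b τ)))
      (fun τ => lb κ (la κ₀ (a τ) (b τ)) (lb κ₀ (a τ) (b τ))) y = F κ' := by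
    rw [hF]
    unfold Phi
    congr 1
    funext τ
    show phd (la κ (la κ₀ (a τ) (b τ)) (lb κ₀ (a τ) (b τ)))
      (lb κ (la κ₀ (a τ) (b τ)) (lb κ₀ (a τ) (b τ))) (y τ) =
      phd (la κ' (a τ) (b τ)) (lb κ' (a τ) (b τ)) (y τ)
    rw [(hcomp (a τ) (b τ)).1, (hcomp (a τ) (b τ)).2, phd_rotate _ _ _ _ hc1]
  rw [e]
  exact hκ₀ κ'

end Pool.H61.Rh
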