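import Pool.Agent.H61.Rn.N0

/-! # N1b: the derivative of the density of `Φ`

Notation: `B = Bf a b`, `R = Re (κ conj B)`, `J = Im (κ conj B)`, `ρ = ‖a‖`, `ν = b/a`,
`q = Re (ȳ ν) = 1 - fq`, `p = Im (ȳ ν)`, `w = 1/ρ + 1/(1+ρ)`.
`phd_hasDerivAt`: derivative at `t = 0` along `a_t = √(1+t²|κ|²) a + t κ b̄`,
`b_t = √(1+t²|κ|²) b + t κ ā`: `δρ = R` (`δ(ρ²) = 2 Re (ā κ b̄)`),
`δν = κ (|a|²-|b|²)/a² = κ/a²`, `δq = Re (ȳ κ / a²)`, hence
`δ phd = R (1 - q) - ρ δq - δq/(1+ρ) + q R/(1+ρ)²` (`phd = ρ (1 - q) - q / (1 + ρ)`).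
`E_hasDerivAt`: `E = J w`; along the system `(κ conj B)' = -i ρ³ κ ȳ/(ρ a²)... `; precisely
`(κ B̄)' = - i κ ρ e^{-2iφ} (ȳ - q ν̄)`, so `J' = -ρ³ δq + q R` (`e^{-2iφ} = ρ²/a²`), `ρ' = ρ p`,
`E' = (-ρ³ δq + q R) w - J ρ p (1/ρ² + 1/(1+ρ)²)`.
`Ed_eq`: `δ phd = R (1 - q) + E'`: if `ρ = 1` then `b = 0` and all is trivial; otherwise
`δq = (q R - p J) / (ρ (ρ² - 1))` (from `ȳ ν = q + i p`, `|ν|² = (ρ²-1)/ρ²`), and the identity is
rational in `ρ`. -/

set_option autoImplicit false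

namespace Pool.H61.Rh

open Complex MeasureTheory

/-- `δq` -/
noncomputable def dq (κ a y : ℂ) : ℝ := ((starRingEnd ℂ) y * κ / a ^ 2).re

/-- `E = Im (κ conj B) (1/ρ + 1/(1+ρ))` -/
noncomputable def Ef (κ a b : ℂ) : ℝ :=
  (κ * (starRingEnd ℂ) (Bf a b)).im * (1 / ‖a‖ + 1 / (1 + ‖a‖))

/-- derivative of `E` along the system -/
noncomputable def Ed (κ a b y : ℂ) : ℝ :=
  (-(‖a‖ ^ 3 * dq κ a y) + (1 - fq a b y) * (κ * (starRingEnd ℂ) (Bf a b)).re)
      * (1 / ‖a‖ + 1 / (1 + ‖a‖))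
    - (κ * (starRingEnd ℂ) (Bf a b)).im * ‖a‖ * ((starRingEnd ℂ) y * (b / a)).im
      * (1 / ‖a‖ ^ 2 + 1 / (1 + ‖a‖) ^ 2)

private theorem N1b_nsq {a : ℂ} : ‖a‖ ^ 2 = a.re * a.re + a.im * a.im := by
  rw [← Complex.normSq_eq_norm_sq, normSq_apply]

private theorem N1b_pos {a b : ℂ} (h : normSq a - normSq b = 1) : 0 < ‖a‖ := by
  have h1 : 0 < normSq a := by
    have := normSq_nonneg b
    linarith
  exact norm_pos_iff.2 (normSq_pos.1 h1)

private theorem N1b_dq {a : ℂ} (ha : 0 < ‖a‖) (κ y : ℂ) :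
    dq κ a y = ((starRingEnd ℂ) y * κ * ((starRingEnd ℂ) a) ^ 2).re / ‖a‖ ^ 4 := by
  have ha0 : a ≠ 0 := norm_pos_iff.1 ha
  have h1 : (starRingEnd ℂ) y * κ / a ^ 2 =
      ((starRingEnd ℂ) y * κ * ((starRingEnd ℂ) a) ^ 2) / ((‖a‖ ^ 4 : ℝ) : ℂ) := by
    have h2 : ((‖a‖ ^ 4 : ℝ) : ℂ) = a ^ 2 * ((starRingEnd ℂ) a) ^ 2 := by
      have h3 : a * (starRingEnd ℂ) a = ((‖a‖ ^ 2 : ℝ) : ℂ) := by
        rw [Complex.mul_conj, Complex.normSq_eq_norm_sq]
      rw [← mul_pow, h3]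
      push_cast
      ring
    have h4 : (starRingEnd ℂ) a ≠ 0 := by
      simpa using ha0
    rw [h2]
    field_simp
  unfold dq
  rw [h1, Complex.div_ofReal_re]

private theorem N1b_B (κ a b : ℂ) : κ * (starRingEnd ℂ) (Bf a b) =
    (κ * ((starRingEnd ℂ) a * (starRingEnd ℂ) b)) / ((‖a‖ : ℝ) : ℂ) := by
  unfold Bf
  rw [map_div₀, map_mul, Complex.conj_ofReal]
  ring

private theorem N1b_R (κ a b : ℂ) : (κ * (starRingEnd ℂ) (Bf a b)).re =
    (κ * ((starRingEnd ℂ) a * (starRingEnd ℂ) b)).re / ‖a‖ := by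
  rw [N1b_B, Complex.div_ofReal_re]

private theorem N1b_J (κ a b : ℂ) : (κ * (starRingEnd ℂ) (Bf a b)).im =
    (κ * ((starRingEnd ℂ) a * (starRingEnd ℂ) b)).im / ‖a‖ := by
  rw [N1b_B, Complex.div_ofReal_im]

private theorem N1b_fq (a b y : ℂ) : fq a b y =
    1 - ((starRingEnd ℂ) y * (starRingEnd ℂ) a * b).re / ‖a‖ ^ 2 := by
  unfold fq
  rw [Complex.normSq_eq_norm_sq]
  congr 2
  simp only [dt, mul_re, mul_im, conj_re, conj_im]
  ring

private theorem N1b_p {a : ℂ} (ha : 0 < ‖a‖) (b y : ℂ) : ((starRingEnd ℂ) y * (b / a)).im =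
    ((starRingEnd ℂ) y * (starRingEnd ℂ) a * b).im / ‖a‖ ^ 2 := by
  have ha0 : a ≠ 0 := norm_pos_iff.1 ha
  have h4 : (starRingEnd ℂ) a ≠ 0 := by
    simpa using ha0
  have h1 : (starRingEnd ℂ) y * (b / a) =
      ((starRingEnd ℂ) y * (starRingEnd ℂ) a * b) / ((‖a‖ ^ 2 : ℝ) : ℂ) := by
    have h3 : ((‖a‖ ^ 2 : ℝ) : ℂ) = a * (starRingEnd ℂ) a := by
      rw [Complex.mul_conj, Complex.normSq_eq_norm_sq]
    rw [h3]
    field_simp
  rw [h1, Complex.div_ofReal_im]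

/-- derivative of the norm -/
private theorem N1b_norm {a : ℝ → ℂ} {a' : ℂ} {t : ℝ} (ha : HasDerivAt a a' t)
    (h0 : 0 < ‖a t‖) :
    HasDerivAt (fun s => ‖a s‖) (dt (a t) a' / ‖a t‖) t := by
  have hre : HasDerivAt (fun s => (a s).re) a'.re t :=
    Complex.reCLM.hasFDerivAt.comp_hasDerivAt t ha
  have him : HasDerivAt (fun s => (a s).im) a'.im t :=
    Complex.imCLM.hasFDerivAt.comp_hasDerivAt t ha
  have h1 : HasDerivAt (fun s => (a s).re * (a s).re + (a s).im * (a s).im)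
      ((a'.re * (a t).re + (a t).re * a'.re) + (a'.im * (a t).im + (a t).im * a'.im)) t :=
    (hre.mul hre).add (him.mul him)
  have h2 : (a t).re * (a t).re + (a t).im * (a t).im ≠ 0 := by
    rw [← N1b_nsq]
    positivity
  have h3 := h1.sqrt h2
  have h4 : (fun s => ‖a s‖) = fun s => Real.sqrt ((a s).re * (a s).re + (a s).im * (a s).im) := by
    funext s
    rw [← N1b_nsq, Real.sqrt_sq (norm_nonneg _)]
  rw [h4]
  refine h3.congr_deriv ?_
  rw [← N1b_nsq, Real.sqrt_sq (norm_nonneg _)]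
  unfold dt
  field_simp
  ring

/-- derivative of `Re (ȳ ā b)` -/
private theorem N1b_num {a b : ℝ → ℂ} {a' b' : ℂ} {t : ℝ} (ha : HasDerivAt a a' t)
    (hb : HasDerivAt b b' t) (y : ℂ) :
    HasDerivAt (fun s => ((starRingEnd ℂ) y * (starRingEnd ℂ) (a s) * b s).re)
      (((starRingEnd ℂ) y * (starRingEnd ℂ) a' * b t).re
        + ((starRingEnd ℂ) y * (starRingEnd ℂ) (a t) * b').re) t := by
  have hca : HasDerivAt (fun s => (starRingEnd ℂ) (a s)) ((starRingEnd ℂ) a') t := by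
    have := (Complex.conjCLE.toContinuousLinearMap.hasFDerivAt (x := a t)).comp_hasDerivAt t ha
    exact this
  have h1 : HasDerivAt (fun s => (starRingEnd ℂ) y * (starRingEnd ℂ) (a s) * b s)
      ((starRingEnd ℂ) y * (starRingEnd ℂ) a' * b t
        + (starRingEnd ℂ) y * (starRingEnd ℂ) (a t) * b') t :=
    (hca.const_mul _).mul hb
  have h2 := Complex.reCLM.hasFDerivAt.comp_hasDerivAt t h1
  refine h2.congr_deriv ?_
  simp [Complex.reCLM_apply]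

/-- derivative of `Im (κ ā b̄)` -/
private theorem N1b_G {a b : ℝ → ℂ} {a' b' : ℂ} {t : ℝ} (ha : HasDerivAt a a' t)
    (hb : HasDerivAt b b' t) (κ : ℂ) :
    HasDerivAt (fun s => (κ * ((starRingEnd ℂ) (a s) * (starRingEnd ℂ) (b s))).im)
      ((κ * ((starRingEnd ℂ) a' * (starRingEnd ℂ) (b t)
        + (starRingEnd ℂ) (a t) * (starRingEnd ℂ) b')).im) t := by
  have hca : HasDerivAt (fun s => (starRingEnd ℂ) (a s)) ((starRingEnd ℂ) a') t :=
    (Complex.conjCLE.toContinuousLinearMap.hasFDerivAt (x := a t)).comp_hasDerivAt t ha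
  have hcb : HasDerivAt (fun s => (starRingEnd ℂ) (b s)) ((starRingEnd ℂ) b') t :=
    (Complex.conjCLE.toContinuousLinearMap.hasFDerivAt (x := b t)).comp_hasDerivAt t hb
  have h1 := (hca.mul hcb).const_mul κ
  exact Complex.imCLM.hasFDerivAt.comp_hasDerivAt t h1

/-- derivative of the density -/
private theorem N1b_phd {a b : ℝ → ℂ} {a' b' : ℂ} {t : ℝ} (ha : HasDerivAt a a' t)
    (hb : HasDerivAt b b' t) (y : ℂ) (h0 : 0 < ‖a t‖) (r q δ : ℝ)
    (hr : dt (a t) a' / ‖a t‖ = r) (hq : 1 - fq (a t) (b t) y = q)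
    (hδ : ((((starRingEnd ℂ) y * (starRingEnd ℂ) a' * b t).re
        + ((starRingEnd ℂ) y * (starRingEnd ℂ) (a t) * b').re) * ‖a t‖ ^ 2
        - ((starRingEnd ℂ) y * (starRingEnd ℂ) (a t) * b t).re * (2 * ‖a t‖ * r))
          / (‖a t‖ ^ 2) ^ 2 = δ) :
    HasDerivAt (fun s => phd (a s) (b s) y)
      (r * fq (a t) (b t) y - ‖a t‖ * δ - δ / (1 + ‖a t‖) + q * r / (1 + ‖a t‖) ^ 2) t := by
  have hn := N1b_norm ha h0
  rw [hr] at hn
  have hN := N1b_num ha hb y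
  have hn2 : HasDerivAt (fun s => ‖a s‖ ^ 2) (2 * ‖a t‖ * r) t := by
    have := hn.pow 2
    refine this.congr_deriv ?_
    norm_num
  have hne : ‖a t‖ ^ 2 ≠ 0 := by positivity
  have hQ := hN.div hn2 hne
  rw [hδ] at hQ
  have hf : HasDerivAt (fun s => fq (a s) (b s) y) (-δ) t := by
    have h1 := hQ.const_sub 1
    have h2 : (fun s => fq (a s) (b s) y) = fun s =>
        1 - ((starRingEnd ℂ) y * (starRingEnd ℂ) (a s) * b s).re / ‖a s‖ ^ 2 := by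
      funext s
      exact N1b_fq _ _ _
    rw [h2]
    exact h1
  have hone : (1 : ℝ) + ‖a t‖ ≠ 0 := by positivity
  have h3 := (hn.mul hf).sub ((hf.const_sub 1).div (hn.const_add 1) hone)
  refine h3.congr_deriv ?_
  rw [← hq]
  field_simp
  ring

private theorem N1b_la {κ a b : ℂ} : HasDerivAt (fun t : ℝ => la (t * κ) a b)
    (κ * (starRingEnd ℂ) b) 0 := by
  have h1 : HasDerivAt (fun t : ℝ => 1 + normSq ((t : ℂ) * κ)) 0 0 := by
    have h2 : (fun t : ℝ => 1 + normSq ((t : ℂ) * κ)) = fun t : ℝ => 1 + t * t * normSq κ := by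
      funext t
      rw [map_mul, normSq_ofReal]
    rw [h2]
    have h3 := (((hasDerivAt_id (0 : ℝ)).mul (hasDerivAt_id (0 : ℝ))).mul_const
      (normSq κ)).const_add 1
    refine h3.congr_deriv ?_
    simp
  have h4 := h1.sqrt (by simp)
  have h5 : HasDerivAt (fun t : ℝ => ((Real.sqrt (1 + normSq ((t : ℂ) * κ)) : ℝ) : ℂ)) 0 0 := by
    have := h4.ofReal_comp
    refine this.congr_deriv ?_
    simp
  have h6 : HasDerivAt (fun t : ℝ => (t : ℂ) * κ * (starRingEnd ℂ) b)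
      (κ * (starRingEnd ℂ) b) 0 := by
    have := ((hasDerivAt_id (0 : ℝ)).ofReal_comp.mul_const κ).mul_const ((starRingEnd ℂ) b)
    refine this.congr_deriv ?_
    simp
  have h7 := (h5.mul_const a).add h6
  refine h7.congr_deriv ?_
  simp

private theorem N1b_la0 (κ a b : ℂ) : la ((0 : ℝ) * κ) a b = a := by
  simp [la]

theorem phd_hasDerivAt (κ a b y : ℂ) (h : normSq a - normSq b = 1) :
    HasDerivAt (fun t : ℝ => phd (la (t * κ) a b) (lb (t * κ) a b) y)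
      ((κ * (starRingEnd ℂ) (Bf a b)).re * fq a b y - ‖a‖ * dq κ a y - dq κ a y / (1 + ‖a‖)
        + (1 - fq a b y) * (κ * (starRingEnd ℂ) (Bf a b)).re / (1 + ‖a‖) ^ 2) 0 := by
  have ha0 := N1b_pos h
  have e1 : la (((0 : ℝ) : ℂ) * κ) a b = a := N1b_la0 κ a b
  have e2 : lb (((0 : ℝ) : ℂ) * κ) a b = b := N1b_la0 κ b a
  have hb : HasDerivAt (fun t : ℝ => lb (t * κ) a b) (κ * (starRingEnd ℂ) a) 0 :=
    N1b_la (κ := κ) (a := b) (b := a)
  have hmain := N1b_phd (a := fun t : ℝ => la (t * κ) a b) (b := fun t : ℝ => lb (t * κ) a b)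
    (t := 0) (N1b_la (κ := κ) (a := a) (b := b)) hb y (by rw [e1]; exact ha0)
    ((κ * (starRingEnd ℂ) (Bf a b)).re) (1 - fq a b y) (dq κ a y) (by
      rw [e1, N1b_R]
      congr 1
      simp only [dt, mul_re, mul_im, conj_re, conj_im]
      ring) (by rw [e1, e2]) (by
      rw [e1, e2, N1b_R, N1b_dq ha0]
      have hN : ‖a‖ ^ 2 = a.re * a.re + a.im * a.im := N1b_nsq
      have h1 : a.re * a.re + a.im * a.im - (b.re * b.re + b.im * b.im) = 1 := by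
        rw [normSq_apply, normSq_apply] at h
        exact h
      have h2 : 2 * ‖a‖ * ((κ * ((starRingEnd ℂ) a * (starRingEnd ℂ) b)).re / ‖a‖) =
          2 * (κ * ((starRingEnd ℂ) a * (starRingEnd ℂ) b)).re := by
        field_simp
      rw [h2, ← pow_mul]
      congr 1
      rw [hN]
      simp only [pow_two, mul_re, mul_im, conj_re, conj_im]
      linear_combination (((y.re * κ.re - -y.im * κ.im) * (a.re * a.re - -a.im * -a.im) -
        (y.re * κ.im + -y.im * κ.re) * (a.re * -a.im + -a.im * a.re))) * h1)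
  rw [e1, e2] at hmain
  exact hmain

theorem E_hasDerivAt {a b : ℝ → ℂ} {y κ : ℂ} {τ : ℝ}
    (ha : HasDerivAt a (I * (a τ - (starRingEnd ℂ) y * b τ)) τ)
    (hb : HasDerivAt b (I * (y * a τ - b τ)) τ) (h : normSq (a τ) - normSq (b τ) = 1) :
    HasDerivAt (fun t => Ef κ (a t) (b t)) (Ed κ (a τ) (b τ) y) τ := by
  have ha0 := N1b_pos h
  have hn := N1b_norm ha ha0
  have hG := N1b_G ha hb κ
  have hρ : dt (a τ) (I * (a τ - (starRingEnd ℂ) y * b τ)) / ‖a τ‖ =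
      ((starRingEnd ℂ) y * (starRingEnd ℂ) (a τ) * b τ).im / ‖a τ‖ := by
    congr 1
    simp only [dt, mul_re, mul_im, conj_re, conj_im, I_re, I_im, sub_re, sub_im]
    ring
  rw [hρ] at hn
  have hne : ‖a τ‖ ≠ 0 := ha0.ne'
  have hone : (1 : ℝ) + ‖a τ‖ ≠ 0 := by positivity
  have hE : (fun t => Ef κ (a t) (b t)) = fun t =>
      (κ * ((starRingEnd ℂ) (a t) * (starRingEnd ℂ) (b t))).im / ‖a t‖ *
        (1 / ‖a t‖ + 1 / (1 + ‖a t‖)) := by
    funext t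
    unfold Ef
    rw [N1b_J]
  rw [hE]
  have h1 := (hG.div hn hne).mul
    (((hasDerivAt_const τ (1 : ℝ)).div hn hne).add
      ((hasDerivAt_const τ (1 : ℝ)).div (hn.const_add 1) hone))
  refine h1.congr_deriv ?_
  simp only [Pi.div_apply, Pi.add_apply]
  unfold Ed
  rw [N1b_J, N1b_R, N1b_dq ha0, N1b_p ha0, N1b_fq]
  -- the two identities
  have hN : ‖a τ‖ ^ 2 = (a τ).re * (a τ).re + (a τ).im * (a τ).im := N1b_nsq
  have i1 : (κ * ((starRingEnd ℂ) (I * (a τ - (starRingEnd ℂ) y * b τ)) * (starRingEnd ℂ) (b τ)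
        + (starRingEnd ℂ) (a τ) * (starRingEnd ℂ) (I * (y * a τ - b τ)))).im =
      -((starRingEnd ℂ) y * κ * ((starRingEnd ℂ) (a τ)) ^ 2).re
        + (κ * y * ((starRingEnd ℂ) (b τ)) ^ 2).re := by
    simp only [pow_two, mul_re, mul_im, conj_re, conj_im, I_re, I_im, sub_re, sub_im, add_im,
      add_re]
    ring
  have i2 : (κ * y * ((starRingEnd ℂ) (b τ)) ^ 2).re * ‖a τ‖ ^ 2 =
      ((starRingEnd ℂ) y * (starRingEnd ℂ) (a τ) * b τ).re *
        (κ * ((starRingEnd ℂ) (a τ) * (starRingEnd ℂ) (b τ))).re +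
      (κ * ((starRingEnd ℂ) (a τ) * (starRingEnd ℂ) (b τ))).im *
        ((starRingEnd ℂ) y * (starRingEnd ℂ) (a τ) * b τ).im := by
    rw [hN]
    simp only [pow_two, mul_re, mul_im, conj_re, conj_im]
    ring
  rw [i1]
  generalize ((starRingEnd ℂ) y * κ * ((starRingEnd ℂ) (a τ)) ^ 2).re = X at *
  generalize ((starRingEnd ℂ) y * (starRingEnd ℂ) (a τ) * b τ).re = Q at *
  generalize ((starRingEnd ℂ) y * (starRingEnd ℂ) (a τ) * b τ).im = P at *
  generalize (κ * ((starRingEnd ℂ) (a τ) * (starRingEnd ℂ) (b τ))).re = R at *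
  generalize (κ * ((starRingEnd ℂ) (a τ) * (starRingEnd ℂ) (b τ))).im = G at *
  generalize (κ * y * ((starRingEnd ℂ) (b τ)) ^ 2).re = Y at *
  generalize ‖a τ‖ = ρ at *
  have i3 : Y = (Q * R + G * P) / ρ ^ 2 := by
    rw [eq_div_iff (pow_ne_zero 2 hne)]
    exact i2
  rw [i3]
  field_simp
  ring

theorem Ed_eq (κ a b y : ℂ) (h : normSq a - normSq b = 1) :
    (κ * (starRingEnd ℂ) (Bf a b)).re * fq a b y - ‖a‖ * dq κ a y - dq κ a y / (1 + ‖a‖)
        + (1 - fq a b y) * (κ * (starRingEnd ℂ) (Bf a b)).re / (1 + ‖a‖) ^ 2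
      = (κ * (starRingEnd ℂ) (Bf a b)).re * fq a b y + Ed κ a b y := by
  have ha0 := N1b_pos h
  have hne : ‖a‖ ≠ 0 := ha0.ne'
  have hone : (1 : ℝ) + ‖a‖ ≠ 0 := by positivity
  unfold Ed
  rw [N1b_J, N1b_R, N1b_dq ha0, N1b_p ha0, N1b_fq]
  have hN : ‖a‖ ^ 2 = a.re * a.re + a.im * a.im := N1b_nsq
  have h1 : ‖a‖ ^ 2 - (b.re * b.re + b.im * b.im) = 1 := by
    rw [hN]
    rw [normSq_apply, normSq_apply] at h
    exact h
  have i2 : ((starRingEnd ℂ) y * (starRingEnd ℂ) a * b).im *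
        (κ * ((starRingEnd ℂ) a * (starRingEnd ℂ) b)).im =
      ((starRingEnd ℂ) y * (starRingEnd ℂ) a * b).re *
        (κ * ((starRingEnd ℂ) a * (starRingEnd ℂ) b)).re -
      (‖a‖ ^ 2 - 1) * ((starRingEnd ℂ) y * κ * ((starRingEnd ℂ) a) ^ 2).re := by
    have h2 : ‖a‖ ^ 2 - 1 = b.re * b.re + b.im * b.im := by linarith
    rw [h2]
    simp only [pow_two, mul_re, mul_im, conj_re, conj_im]
    ring
  generalize ((starRingEnd ℂ) y * κ * ((starRingEnd ℂ) a) ^ 2).re = X at *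
  generalize ((starRingEnd ℂ) y * (starRingEnd ℂ) a * b).re = Q at *
  generalize ((starRingEnd ℂ) y * (starRingEnd ℂ) a * b).im = P at *
  generalize (κ * ((starRingEnd ℂ) a * (starRingEnd ℂ) b)).re = R at *
  generalize (κ * ((starRingEnd ℂ) a * (starRingEnd ℂ) b)).im = G at *
  generalize ‖a‖ = ρ at *
  have i4 : G * P = Q * R - (ρ ^ 2 - 1) * X := by
    rw [mul_comm]
    exact i2
  have i5 : G / ρ * ρ * (P / ρ ^ 2) * (1 / ρ ^ 2 + 1 / (1 + ρ) ^ 2) =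
      (Q * R - (ρ ^ 2 - 1) * X) / ρ ^ 2 * (1 / ρ ^ 2 + 1 / (1 + ρ) ^ 2) := by
    rw [← i4]
    field_simp
  rw [i5]
  field_simp
  ring

end Pool.H61.Rh
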