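import Pool.Agent.H61.Rn.N1a
import Pool.Agent.H61.Rn.N1b

/-! # N1c: the frame with `B_0 = 0`

For the minimising frame and `κ : ℂ`, `t ↦ Phi T (la (tκ) ..) (lb (tκ) ..) y` has a minimum at
`t = 0` (`la 0 a b = a`), and its derivative at `0` is
`∫₀ᵀ (Re (κ conj B) fq + Ed) dτ = ∫₀ᵀ Re (κ conj B) fq dτ + [Ef]₀ᵀ` (differentiation under the
integral: `hasDerivAt_integral_of_dominated_loc_of_deriv_le`; the derivative for `t ≠ 0` is
continuous in `(t, τ)`, so it is bounded on `[-1,1] × [0,T]`; alternatively show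
`|phd(t) - phd(0) - t phd'(0)| ≤ C t²` uniformly on the compact set).  `Ef` at `T` equals `Ef` at
`0` because `Bf (ζ a) (ζ̄ b) = Bf a b`.  So `∫₀ᵀ Re (κ conj B) fq dτ = 0` for all `κ`. -/

set_option autoImplicit false

namespace Pool.H61.Rh

open Complex MeasureTheory

/-- the density as a function of all variables -/
private noncomputable def N1c_F (κ : ℂ) (p : ℝ × ℂ × ℂ × ℂ) : ℝ :=
  phd (la (p.1 * κ) p.2.1 p.2.2.1) (lb (p.1 * κ) p.2.1 p.2.2.1) p.2.2.2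

private theorem N1c_la_smooth (κ : ℂ) :
    ContDiff ℝ 1 (fun p : ℝ × ℂ × ℂ × ℂ => la (p.1 * κ) p.2.1 p.2.2.1) := by
  have hre : ContDiff ℝ 1 (fun z : ℂ => z.re) := Complex.reCLM.contDiff
  have him : ContDiff ℝ 1 (fun z : ℂ => z.im) := Complex.imCLM.contDiff
  have hconj : ContDiff ℝ 1 (fun z : ℂ => (starRingEnd ℂ) z) := Complex.conjCLE.contDiff
  have hof : ContDiff ℝ 1 (fun x : ℝ => (x : ℂ)) := Complex.ofRealCLM.contDiff
  have h1 : ContDiff ℝ 1 (fun p : ℝ × ℂ × ℂ × ℂ => (p.1 : ℂ) * κ) :=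
    (hof.comp contDiff_fst).mul contDiff_const
  have h2 : ContDiff ℝ 1 (fun p : ℝ × ℂ × ℂ × ℂ => 1 + normSq ((p.1 : ℂ) * κ)) := by
    simp only [normSq_apply]
    exact contDiff_const.add (((hre.comp h1).mul (hre.comp h1)).add
      ((him.comp h1).mul (him.comp h1)))
  have h3 : ContDiff ℝ 1 (fun p : ℝ × ℂ × ℂ × ℂ =>
      ((Real.sqrt (1 + normSq ((p.1 : ℂ) * κ)) : ℝ) : ℂ)) := by
    refine hof.comp (h2.sqrt (fun p => ?_))
    have := normSq_nonneg ((p.1 : ℂ) * κ)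
    linarith
  unfold la
  exact (h3.mul (contDiff_fst.comp contDiff_snd)).add
    (h1.mul (hconj.comp (contDiff_fst.comp (contDiff_snd.comp contDiff_snd))))

private theorem N1c_lb_smooth (κ : ℂ) :
    ContDiff ℝ 1 (fun p : ℝ × ℂ × ℂ × ℂ => lb (p.1 * κ) p.2.1 p.2.2.1) := by
  have hre : ContDiff ℝ 1 (fun z : ℂ => z.re) := Complex.reCLM.contDiff
  have him : ContDiff ℝ 1 (fun z : ℂ => z.im) := Complex.imCLM.contDiff
  have hconj : ContDiff ℝ 1 (fun z : ℂ => (starRingEnd ℂ) z) := Complex.conjCLE.contDiff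
  have hof : ContDiff ℝ 1 (fun x : ℝ => (x : ℂ)) := Complex.ofRealCLM.contDiff
  have h1 : ContDiff ℝ 1 (fun p : ℝ × ℂ × ℂ × ℂ => (p.1 : ℂ) * κ) :=
    (hof.comp contDiff_fst).mul contDiff_const
  have h2 : ContDiff ℝ 1 (fun p : ℝ × ℂ × ℂ × ℂ => 1 + normSq ((p.1 : ℂ) * κ)) := by
    simp only [normSq_apply]
    exact contDiff_const.add (((hre.comp h1).mul (hre.comp h1)).add
      ((him.comp h1).mul (him.comp h1)))
  have h3 : ContDiff ℝ 1 (fun p : ℝ × ℂ × ℂ × ℂ =>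
      ((Real.sqrt (1 + normSq ((p.1 : ℂ) * κ)) : ℝ) : ℂ)) := by
    refine hof.comp (h2.sqrt (fun p => ?_))
    have := normSq_nonneg ((p.1 : ℂ) * κ)
    linarith
  unfold lb
  exact (h3.mul (contDiff_fst.comp (contDiff_snd.comp contDiff_snd))).add
    (h1.mul (hconj.comp (contDiff_fst.comp contDiff_snd)))

private theorem N1c_smooth (κ : ℂ) (p : ℝ × ℂ × ℂ × ℂ)
    (h0 : la (p.1 * κ) p.2.1 p.2.2.1 ≠ 0) : ContDiffAt ℝ 1 (N1c_F κ) p := by
  have hre : ContDiff ℝ 1 (fun z : ℂ => z.re) := Complex.reCLM.contDiff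
  have him : ContDiff ℝ 1 (fun z : ℂ => z.im) := Complex.imCLM.contDiff
  have hA := N1c_la_smooth κ
  have hB := N1c_lb_smooth κ
  have hY : ContDiff ℝ 1 (fun p : ℝ × ℂ × ℂ × ℂ => p.2.2.2) :=
    contDiff_snd.comp (contDiff_snd.comp contDiff_snd)
  have hYA := hY.mul hA
  have hdt : ContDiff ℝ 1 (fun p : ℝ × ℂ × ℂ × ℂ =>
      dt (p.2.2.2 * la (p.1 * κ) p.2.1 p.2.2.1) (lb (p.1 * κ) p.2.1 p.2.2.1)) := by
    unfold dt
    exact ((hre.comp hYA).mul (hre.comp hB)).add ((him.comp hYA).mul (him.comp hB))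
  have hns : ContDiff ℝ 1 (fun p : ℝ × ℂ × ℂ × ℂ =>
      normSq (la (p.1 * κ) p.2.1 p.2.2.1)) := by
    simp only [normSq_apply]
    exact ((hre.comp hA).mul (hre.comp hA)).add ((him.comp hA).mul (him.comp hA))
  have hnorm : ContDiffAt ℝ 1 (fun p : ℝ × ℂ × ℂ × ℂ =>
      ‖la (p.1 * κ) p.2.1 p.2.2.1‖) p := hA.contDiffAt.norm ℝ h0
  have hfq : ContDiffAt ℝ 1 (fun p : ℝ × ℂ × ℂ × ℂ =>
      fq (la (p.1 * κ) p.2.1 p.2.2.1) (lb (p.1 * κ) p.2.1 p.2.2.1) p.2.2.2) p := by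
    unfold fq
    exact contDiffAt_const.sub (hdt.contDiffAt.div hns.contDiffAt (by
      rw [ne_eq, normSq_eq_zero]
      exact h0))
  have hpos : (1 : ℝ) + ‖la (p.1 * κ) p.2.1 p.2.2.1‖ ≠ 0 := by
    have := norm_nonneg (la (p.1 * κ) p.2.1 p.2.2.1)
    linarith
  unfold N1c_F phd
  exact (hnorm.mul hfq).sub ((contDiffAt_const.sub hfq).div (contDiffAt_const.add hnorm) hpos)

/-- the derivative of the density with respect to the parameter -/
private noncomputable def N1c_D (κ : ℂ) (p : ℝ × ℂ × ℂ × ℂ) : ℝ :=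
  fderiv ℝ (N1c_F κ) p (1, 0)

private theorem N1c_D_cont (κ : ℂ) (p : ℝ × ℂ × ℂ × ℂ)
    (h0 : la (p.1 * κ) p.2.1 p.2.2.1 ≠ 0) : ContinuousAt (N1c_D κ) p := by
  have h1 : ContDiffAt ℝ 0 (fderiv ℝ (N1c_F κ)) p :=
    (N1c_smooth κ p h0).fderiv_right (by norm_num)
  unfold N1c_D
  exact h1.continuousAt.clm_apply continuousAt_const

private theorem N1c_hasDerivAt (κ : ℂ) (t : ℝ) (z : ℂ × ℂ × ℂ)
    (h0 : la (t * κ) z.1 z.2.1 ≠ 0) :
    HasDerivAt (fun t => N1c_F κ (t, z)) (N1c_D κ (t, z)) t := by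
  have h1 : HasFDerivAt (N1c_F κ) (fderiv ℝ (N1c_F κ) (t, z)) (t, z) :=
    ((N1c_smooth κ (t, z) h0).differentiableAt one_ne_zero).hasFDerivAt
  exact h1.comp_hasDerivAt t ((hasDerivAt_id t).prodMk (hasDerivAt_const t z))

private theorem N1c_ne {T : ℝ} {a b y : ℝ → ℂ} (h : RS T a b y) (τ : ℝ) : a τ ≠ 0 := by
  intro h0
  have h1 := h.hn τ
  rw [h0, normSq_zero] at h1
  have h2 := normSq_nonneg (b τ)
  linarith

private theorem N1c_la_ne {T : ℝ} {a b y : ℝ → ℂ} (h : RS T a b y) (κ : ℂ) (τ : ℝ) :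
    la κ (a τ) (b τ) ≠ 0 := N1c_ne (h.left κ) τ

private theorem N1c_a_cont {T : ℝ} {a b y : ℝ → ℂ} (h : RS T a b y) : Continuous a :=
  continuous_iff_continuousAt.2 (fun τ => (h.ha τ).continuousAt)

private theorem N1c_b_cont {T : ℝ} {a b y : ℝ → ℂ} (h : RS T a b y) : Continuous b :=
  continuous_iff_continuousAt.2 (fun τ => (h.hb τ).continuousAt)

private theorem N1c_y_cont {T : ℝ} {a b y : ℝ → ℂ} (h : RS T a b y) : Continuous y := by
  obtain ⟨C, hC⟩ := h.ylip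
  exact hC.continuous

private theorem N1c_path_cont {T : ℝ} {a b y : ℝ → ℂ} (h : RS T a b y) :
    Continuous (fun q : ℝ × ℝ => ((q.1, a q.2, b q.2, y q.2) : ℝ × ℂ × ℂ × ℂ)) :=
  continuous_fst.prodMk (((N1c_a_cont h).comp continuous_snd).prodMk
    (((N1c_b_cont h).comp continuous_snd).prodMk ((N1c_y_cont h).comp continuous_snd)))

private theorem N1c_D_path {T : ℝ} {a b y : ℝ → ℂ} (h : RS T a b y) (κ : ℂ) :
    Continuous (fun q : ℝ × ℝ => N1c_D κ (q.1, a q.2, b q.2, y q.2)) := by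
  rw [continuous_iff_continuousAt]
  intro q
  exact ContinuousAt.comp (g := N1c_D κ)
    (N1c_D_cont κ (q.1, a q.2, b q.2, y q.2) (N1c_la_ne h (q.1 * κ) q.2))
    (N1c_path_cont h).continuousAt

private theorem N1c_F_path {T : ℝ} {a b y : ℝ → ℂ} (h : RS T a b y) (κ : ℂ) :
    Continuous (fun q : ℝ × ℝ => N1c_F κ (q.1, a q.2, b q.2, y q.2)) := by
  rw [continuous_iff_continuousAt]
  intro q
  exact ContinuousAt.comp (g := N1c_F κ)
    (N1c_smooth κ (q.1, a q.2, b q.2, y q.2) (N1c_la_ne h (q.1 * κ) q.2)).continuousAt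
    (N1c_path_cont h).continuousAt

private theorem N1c_normSq_ze : normSq ze = 1 := by
  have h1 := s3_mul
  rw [normSq_apply, ze_re, ze_im]
  nlinarith

private theorem N1c_norm_ze : ‖ze‖ = 1 := by
  have h1 : ‖ze‖ ^ 2 = 1 := by rw [← normSq_eq_norm_sq, N1c_normSq_ze]
  have h2 := norm_nonneg ze
  nlinarith

private theorem N1c_Bf_per {T : ℝ} {a b y : ℝ → ℂ} (h : RS T a b y) (τ : ℝ) :
    Bf (a (τ + T)) (b (τ + T)) = Bf (a τ) (b τ) := by
  unfold Bf
  rw [h.pa, h.pb, norm_mul, N1c_norm_ze, one_mul]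
  congr 1
  calc ze * a τ * ((starRingEnd ℂ) ze * b τ) = (ze * (starRingEnd ℂ) ze) * (a τ * b τ) := by ring
    _ = a τ * b τ := by rw [ze_mul_conj, one_mul]

private theorem N1c_norm_per {T : ℝ} {a b y : ℝ → ℂ} (h : RS T a b y) (τ : ℝ) :
    ‖a (τ + T)‖ = ‖a τ‖ := by
  rw [h.pa, norm_mul, N1c_norm_ze, one_mul]

private theorem N1c_B_cont {T : ℝ} {a b y : ℝ → ℂ} (h : RS T a b y) :
    Continuous (fun τ => Bf (a τ) (b τ)) := by
  unfold Bf
  refine ((N1c_a_cont h).mul (N1c_b_cont h)).div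
    (Complex.continuous_ofReal.comp (N1c_a_cont h).norm) (fun τ => ?_)
  rw [ne_eq, Complex.ofReal_eq_zero, norm_eq_zero]
  exact N1c_ne h τ

private theorem N1c_fq_cont {T : ℝ} {a b y : ℝ → ℂ} (h : RS T a b y) :
    Continuous (fun τ => fq (a τ) (b τ) (y τ)) := by
  unfold fq dt
  have ha := N1c_a_cont h
  have hb := N1c_b_cont h
  have hy := N1c_y_cont h
  have hya := hy.mul ha
  refine continuous_const.sub (Continuous.div ?_ (Complex.continuous_normSq.comp ha) (fun τ => ?_))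
  · exact ((Complex.continuous_re.comp hya).mul (Complex.continuous_re.comp hb)).add
      ((Complex.continuous_im.comp hya).mul (Complex.continuous_im.comp hb))
  · rw [ne_eq, normSq_eq_zero]
    exact N1c_ne h τ

private theorem N1c_R_cont {T : ℝ} {a b y : ℝ → ℂ} (h : RS T a b y) (κ : ℂ) :
    Continuous (fun τ => (κ * (starRingEnd ℂ) (Bf (a τ) (b τ))).re * fq (a τ) (b τ) (y τ)) :=
  (Complex.continuous_re.comp (continuous_const.mul
    (Complex.continuous_conj.comp (N1c_B_cont h)))).mul (N1c_fq_cont h)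

private theorem N1c_D_eq {T : ℝ} {a b y : ℝ → ℂ} (h : RS T a b y) (κ : ℂ) (τ : ℝ) :
    N1c_D κ (0, a τ, b τ, y τ) =
      (κ * (starRingEnd ℂ) (Bf (a τ) (b τ))).re * fq (a τ) (b τ) (y τ)
        + Ed κ (a τ) (b τ) (y τ) := by
  have h1 := N1c_hasDerivAt κ 0 (a τ, b τ, y τ) (N1c_la_ne h (((0 : ℝ) : ℂ) * κ) τ)
  have h2 := phd_hasDerivAt κ (a τ) (b τ) (y τ) (h.hn τ)
  rw [Ed_eq κ (a τ) (b τ) (y τ) (h.hn τ)] at h2
  exact h1.unique h2

private theorem N1c_int_Ed {T : ℝ} {a b y : ℝ → ℂ} (h : RS T a b y) (κ : ℂ) :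
    Continuous (fun τ => Ed κ (a τ) (b τ) (y τ)) ∧
      ∫ τ in (0 : ℝ)..T, Ed κ (a τ) (b τ) (y τ) = 0 := by
  have hc : Continuous (fun τ => Ed κ (a τ) (b τ) (y τ)) := by
    have e : (fun τ => Ed κ (a τ) (b τ) (y τ)) = fun τ => N1c_D κ (0, a τ, b τ, y τ) -
        (κ * (starRingEnd ℂ) (Bf (a τ) (b τ))).re * fq (a τ) (b τ) (y τ) := by
      funext τ
      rw [N1c_D_eq h]
      ring
    rw [e]
    exact ((N1c_D_path h κ).comp (continuous_const.prodMk continuous_id)).sub (N1c_R_cont h κ)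
  refine ⟨hc, ?_⟩
  rw [intervalIntegral.integral_eq_sub_of_hasDerivAt
    (f := fun τ => Ef κ (a τ) (b τ)) (fun τ _ => E_hasDerivAt (h.ha τ) (h.hb τ) (h.hn τ))
    (hc.intervalIntegrable _ _)]
  have h1 := N1c_Bf_per h 0
  have h2 := N1c_norm_per h 0
  rw [zero_add] at h1 h2
  unfold Ef
  rw [h1, h2, sub_self]

theorem RS.Phi_hasDerivAt {T : ℝ} {a b y : ℝ → ℂ} (h : RS T a b y) (κ : ℂ) :
    HasDerivAt (fun t : ℝ => Phi T (fun τ => la (t * κ) (a τ) (b τ))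
        (fun τ => lb (t * κ) (a τ) (b τ)) y)
      (∫ τ in (0 : ℝ)..T, (κ * (starRingEnd ℂ) (Bf (a τ) (b τ))).re * fq (a τ) (b τ) (y τ)) 0 := by
  obtain ⟨C, hC⟩ := (isCompact_Icc.prod isCompact_uIcc : IsCompact
    (Set.Icc (-1 : ℝ) 1 ×ˢ Set.uIcc (0 : ℝ) T)).exists_bound_of_continuousOn
    (N1c_D_path h κ).continuousOn
  have hmain := (intervalIntegral.hasDerivAt_integral_of_dominated_loc_of_deriv_le
    (μ := volume) (𝕜 := ℝ) (a := (0 : ℝ)) (b := T) (x₀ := (0 : ℝ))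
    (F := fun t τ => N1c_F κ (t, a τ, b τ, y τ)) (F' := fun t τ => N1c_D κ (t, a τ, b τ, y τ))
    (bound := fun _ => C) (s := Metric.ball (0 : ℝ) 1) (Metric.ball_mem_nhds (0 : ℝ) one_pos)
    (Filter.Eventually.of_forall fun t =>
      ((N1c_F_path h κ).comp (continuous_const.prodMk continuous_id)).aestronglyMeasurable)
    (((N1c_F_path h κ).comp (continuous_const.prodMk continuous_id)).intervalIntegrable _ _)
    ((N1c_D_path h κ).comp (continuous_const.prodMk continuous_id)).aestronglyMeasurable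
    (Filter.Eventually.of_forall fun τ hτ t ht => by
      refine hC (t, τ) ⟨?_, Set.uIoc_subset_uIcc hτ⟩
      rw [Metric.mem_ball, Real.dist_eq, sub_zero, abs_lt] at ht
      exact ⟨ht.1.le, ht.2.le⟩)
    (continuous_const.intervalIntegrable _ _)
    (Filter.Eventually.of_forall fun τ _ t _ =>
      N1c_hasDerivAt κ t (a τ, b τ, y τ) (N1c_la_ne h (t * κ) τ))).2
  have hval : ∫ τ in (0 : ℝ)..T, N1c_D κ (0, a τ, b τ, y τ) =
      ∫ τ in (0 : ℝ)..T, (κ * (starRingEnd ℂ) (Bf (a τ) (b τ))).re * fq (a τ) (b τ) (y τ) := by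
    obtain ⟨h1, h2⟩ := N1c_int_Ed h κ
    have e : (fun τ => N1c_D κ (0, a τ, b τ, y τ)) = fun τ =>
        (κ * (starRingEnd ℂ) (Bf (a τ) (b τ))).re * fq (a τ) (b τ) (y τ)
          + Ed κ (a τ) (b τ) (y τ) := by
      funext τ
      exact N1c_D_eq h κ τ
    rw [e, intervalIntegral.integral_add ((N1c_R_cont h κ).intervalIntegrable _ _)
      (h1.intervalIntegrable _ _), h2, add_zero]
  rw [hval] at hmain
  exact hmain

private theorem N1c_la_zero (a b : ℂ) : la 0 a b = a := by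
  unfold la
  simp

private theorem N1c_lb_zero (a b : ℂ) : lb 0 a b = b := by
  unfold lb
  simp

theorem RS.frame0 {T : ℝ} {a b y : ℝ → ℂ} (h : RS T a b y) :
    ∃ a' b' : ℝ → ℂ, RS T a' b' y ∧
      ∫ τ in (0 : ℝ)..T, (fq (a' τ) (b' τ) (y τ) : ℂ) * Bf (a' τ) (b' τ) = 0 := by
  obtain ⟨a', b', h', hmin⟩ := h.exists_min
  refine ⟨a', b', h', ?_⟩
  have hzero : ∀ κ : ℂ, ∫ τ in (0 : ℝ)..T,
      (κ * (starRingEnd ℂ) (Bf (a' τ) (b' τ))).re * fq (a' τ) (b' τ) (y τ) = 0 := by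
    intro κ
    have hlm : IsLocalMin (fun t : ℝ => Phi T (fun τ => la (t * κ) (a' τ) (b' τ))
        (fun τ => lb (t * κ) (a' τ) (b' τ)) y) 0 := by
      refine Filter.Eventually.of_forall (fun t => ?_)
      have h1 := hmin (t * κ)
      have e : Phi T (fun τ => la (((0 : ℝ) : ℂ) * κ) (a' τ) (b' τ))
          (fun τ => lb (((0 : ℝ) : ℂ) * κ) (a' τ) (b' τ)) y = Phi T a' b' y := by
        simp only [Complex.ofReal_zero, zero_mul, N1c_la_zero, N1c_lb_zero]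
      simp only [e]
      exact h1
    exact hlm.hasDerivAt_eq_zero (h'.Phi_hasDerivAt κ)
  have hcont : Continuous (fun τ => (fq (a' τ) (b' τ) (y τ) : ℂ) * Bf (a' τ) (b' τ)) :=
    (Complex.continuous_ofReal.comp (N1c_fq_cont h')).mul (N1c_B_cont h')
  have hint := hcont.intervalIntegrable (μ := volume) 0 T
  apply Complex.ext
  · have h2 := hzero 1
    rw [Complex.zero_re]
    have h3 : (∫ τ in (0 : ℝ)..T, (fq (a' τ) (b' τ) (y τ) : ℂ) * Bf (a' τ) (b' τ)).re =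
        ∫ τ in (0 : ℝ)..T, ((fq (a' τ) (b' τ) (y τ) : ℂ) * Bf (a' τ) (b' τ)).re :=
      (ContinuousLinearMap.intervalIntegral_comp_comm (𝕜 := ℝ) Complex.reCLM hint).symm
    refine h3.trans (Eq.trans ?_ h2)
    refine intervalIntegral.integral_congr (fun τ _ => ?_)
    simp only [one_mul, Complex.conj_re, Complex.re_ofReal_mul]
    ring
  · have h2 := hzero I
    rw [Complex.zero_im]
    have h3 : (∫ τ in (0 : ℝ)..T, (fq (a' τ) (b' τ) (y τ) : ℂ) * Bf (a' τ) (b' τ)).im =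
        ∫ τ in (0 : ℝ)..T, ((fq (a' τ) (b' τ) (y τ) : ℂ) * Bf (a' τ) (b' τ)).im :=
      (ContinuousLinearMap.intervalIntegral_comp_comm (𝕜 := ℝ) Complex.imCLM hint).symm
    refine h3.trans (Eq.trans ?_ h2)
    refine intervalIntegral.integral_congr (fun τ _ => ?_)
    simp only [Complex.mul_re, Complex.I_re, Complex.I_im, Complex.conj_re, Complex.conj_im,
      Complex.im_ofReal_mul]
    ring

end Pool.H61.Rh
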