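import Pool.Agent.H61.Rn.N1c

/-! # N2: rotation: `B_{-1} ≤ 0`

`(c a, c b)` with `|c| = 1`: `Bf (c a) (c b) = c² Bf a b`, `(c a / ‖c a‖)^6 = c^6 (a/‖a‖)^6`,
`fq` does not change.  So the integral of `fq B (a/‖a‖)^6` is multiplied by `c^8`; choose `c` with
`c^8 z = -‖z‖` (an 8th root of a number of modulus one). -/

set_option autoImplicit false

namespace Pool.H61.Rh

open Complex MeasureTheory

/-- a frame with `B_0 = 0` and `B_{-1} = -R`, `R ≥ 0` -/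
structure RS0 (T R : ℝ) (a b y : ℝ → ℂ) : Prop where
  rs : RS T a b y
  Rnn : 0 ≤ R
  zero : ∫ τ in (0 : ℝ)..T, (fq (a τ) (b τ) (y τ) : ℂ) * Bf (a τ) (b τ) = 0
  one : ∫ τ in (0 : ℝ)..T, (fq (a τ) (b τ) (y τ) : ℂ) * (Bf (a τ) (b τ) *
    (a τ / (‖a τ‖ : ℂ)) ^ 6) = -(((Real.pi / 3 * R : ℝ)) : ℂ)

private theorem N2_fq (a b y c : ℂ) (hc : normSq c = 1) : fq (c * a) (c * b) y = fq a b y := by
  unfold fq
  have h1 : dt (y * (c * a)) (c * b) = normSq c * dt (y * a) b := by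
    simp only [dt, normSq_apply, mul_re, mul_im]
    ring
  rw [h1, normSq_mul, hc, one_mul, one_mul]

private theorem N2_norm {c : ℂ} (hc : normSq c = 1) : ‖c‖ = 1 := by
  rw [normSq_eq_norm_sq] at hc
  exact (pow_eq_one_iff_of_nonneg (norm_nonneg c) (by norm_num)).1 hc

private theorem N2_Bf (a b c : ℂ) (hc : normSq c = 1) :
    Bf (c * a) (c * b) = c ^ 2 * Bf a b := by
  unfold Bf
  rw [norm_mul, N2_norm hc, one_mul]
  ring

private theorem N2_root (z : ℂ) : ∃ c : ℂ, normSq c = 1 ∧ c ^ 8 * z = -(‖z‖ : ℂ) := by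
  by_cases hz : z = 0
  · exact ⟨1, by simp, by simp [hz]⟩
  · obtain ⟨c, hc⟩ := IsAlgClosed.exists_pow_nat_eq (-(‖z‖ : ℂ) / z) (n := 8) (by norm_num)
    have hn : (0 : ℝ) < ‖z‖ := norm_pos_iff.2 hz
    refine ⟨c, ?_, ?_⟩
    · have h1 : ‖c‖ ^ 8 = 1 := by
        rw [← norm_pow, hc, norm_div, norm_neg, norm_real, norm_norm, div_self hn.ne']
      have h2 : ‖c‖ = 1 := (pow_eq_one_iff_of_nonneg (norm_nonneg c) (by norm_num)).1 h1
      rw [normSq_eq_norm_sq, h2]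
      norm_num
    · rw [hc, div_mul_cancel₀ _ hz]

theorem RS.rs0 {T : ℝ} {a b y : ℝ → ℂ} (h : RS T a b y) :
    ∃ (R : ℝ) (a' b' : ℝ → ℂ), RS0 T R a' b' y := by
  obtain ⟨a', b', h', h0⟩ := h.frame0
  set z : ℂ := ∫ τ in (0 : ℝ)..T, (fq (a' τ) (b' τ) (y τ) : ℂ) * (Bf (a' τ) (b' τ) *
    (a' τ / (‖a' τ‖ : ℂ)) ^ 6) with hz
  obtain ⟨c, hc, hcz⟩ := N2_root z
  refine ⟨3 / Real.pi * ‖z‖, fun τ => c * a' τ, fun τ => c * b' τ,
    h'.rotate c hc, by positivity, ?_, ?_⟩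
  · have h1 : ∀ τ : ℝ, (fq (c * a' τ) (c * b' τ) (y τ) : ℂ) * Bf (c * a' τ) (c * b' τ) =
        c ^ 2 * ((fq (a' τ) (b' τ) (y τ) : ℂ) * Bf (a' τ) (b' τ)) := by
      intro τ
      rw [N2_fq _ _ _ _ hc, N2_Bf _ _ _ hc]
      ring
    simp only [h1]
    rw [intervalIntegral.integral_const_mul, h0, mul_zero]
  · have h1 : ∀ τ : ℝ, (fq (c * a' τ) (c * b' τ) (y τ) : ℂ) * (Bf (c * a' τ) (c * b' τ) *
        (c * a' τ / (‖c * a' τ‖ : ℂ)) ^ 6) =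
        c ^ 8 * ((fq (a' τ) (b' τ) (y τ) : ℂ) * (Bf (a' τ) (b' τ) *
          (a' τ / (‖a' τ‖ : ℂ)) ^ 6)) := by
      intro τ
      rw [N2_fq _ _ _ _ hc, N2_Bf _ _ _ hc, norm_mul, N2_norm hc, one_mul, mul_div_assoc, mul_pow]
      ring
    simp only [h1]
    rw [intervalIntegral.integral_const_mul, ← hz, hcz]
    have h2 : Real.pi / 3 * (3 / Real.pi * ‖z‖) = ‖z‖ := by
      field_simp
    rw [h2]

end Pool.H61.Rh
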