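import Pool.Agent.H61.Rn.N1a

/-! # N3: the clock

`φ τ = φ₀ + ∫₀^τ fq`, `φ₀ = arg (a 0)`.  `(a/‖a‖)' = i fq (a/‖a‖)` (from
`a'/a = i (1 - ȳ ν)`, so `(log a)' = i (1 - q) + p`), hence `a = ‖a‖ e^{iφ}`.
`e^{i(φ(τ+T) - φ τ)} = ζ = e^{iπ/3}`; `φ(τ+T) - φ τ = ∫_τ^{τ+T} fq` lies in `(0, 2T) ⊆ (0, 2.1)`
(`0 < fq < 2`, `T ≤ 1.05`), so it is `π/3`.
`σ` is the inverse function of the strictly increasing bijection `φ` (`φ' ≥ .1113`). -/

set_option autoImplicit false

namespace Pool.H61.Rh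

open Complex MeasureTheory

/-- the angle clock `φ` and its inverse `σ` -/
structure Clk (T : ℝ) (a b y : ℝ → ℂ) (φ σ : ℝ → ℝ) : Prop where
  dphi : ∀ τ, HasDerivAt φ (fq (a τ) (b τ) (y τ)) τ
  polar : ∀ τ, a τ = (‖a τ‖ : ℂ) * exp (I * (φ τ : ℂ))
  phiT : ∀ τ, φ (τ + T) = φ τ + Real.pi / 3
  sp : ∀ τ, σ (φ τ) = τ
  ps : ∀ s, φ (σ s) = s
  dsig : ∀ s, HasDerivAt σ (1 / fq (a (σ s)) (b (σ s)) (y (σ s))) s
  sigT : ∀ s, σ (s + Real.pi / 3) = σ s + T

private theorem N3_norm_pos {T : ℝ} {a b y : ℝ → ℂ} (h : RS T a b y) (τ : ℝ) :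
    0 < normSq (a τ) := by
  have := h.hn τ
  have := normSq_nonneg (b τ)
  linarith

private theorem N3_ne {T : ℝ} {a b y : ℝ → ℂ} (h : RS T a b y) (τ : ℝ) : a τ ≠ 0 :=
  normSq_pos.mp (N3_norm_pos h τ)

private theorem N3_conts {T : ℝ} {a b y : ℝ → ℂ} (h : RS T a b y) :
    Continuous a ∧ Continuous b ∧ Continuous y := by
  refine ⟨continuous_iff_continuousAt.mpr fun τ => (h.ha τ).continuousAt,
    continuous_iff_continuousAt.mpr fun τ => (h.hb τ).continuousAt, ?_⟩
  obtain ⟨C, hC⟩ := h.ylip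
  exact hC.continuous

private theorem N3_fq_cont {T : ℝ} {a b y : ℝ → ℂ} (h : RS T a b y) :
    Continuous fun τ => fq (a τ) (b τ) (y τ) := by
  obtain ⟨ca, cb, cy⟩ := N3_conts h
  unfold fq dt
  refine continuous_const.sub (Continuous.div ?_ ?_ fun τ => (N3_norm_pos h τ).ne')
  · fun_prop
  · exact continuous_normSq.comp ca

/-- the rate of `log ‖a‖` -/
private noncomputable def N3_p (a b y : ℂ) : ℝ := cr (y * a) b / normSq a

private theorem N3_p_cont {T : ℝ} {a b y : ℝ → ℂ} (h : RS T a b y) :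
    Continuous fun τ => N3_p (a τ) (b τ) (y τ) := by
  obtain ⟨ca, cb, cy⟩ := N3_conts h
  unfold N3_p cr
  refine Continuous.div ?_ ?_ fun τ => (N3_norm_pos h τ).ne'
  · fun_prop
  · exact continuous_normSq.comp ca

/-- the logarithmic derivative of `a` -/
private theorem N3_alg (a b y : ℂ) (ha : a ≠ 0) :
    I * (a - (starRingEnd ℂ) y * b) = ((N3_p a b y : ℝ) + I * (fq a b y : ℝ)) * a := by
  have hn : normSq a ≠ 0 := (normSq_pos.mpr ha).ne'
  have hn' : (normSq a : ℂ) ≠ 0 := by exact_mod_cast hn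
  have hw : (starRingEnd ℂ) (y * a) * b = (dt (y * a) b : ℂ) + I * (cr (y * a) b : ℂ) := by
    rw [dt_eq_re, cr_eq_im, mul_comm I]
    exact (re_add_im _).symm
  have haa : a * (starRingEnd ℂ) a = (normSq a : ℂ) := mul_conj a
  have h1 : (normSq a : ℂ) * ((starRingEnd ℂ) y * b) =
      ((dt (y * a) b : ℂ) + I * (cr (y * a) b : ℂ)) * a := by
    rw [← hw, map_mul, ← haa]; ring
  have h2 : (starRingEnd ℂ) y * b =
      ((dt (y * a) b : ℂ) + I * (cr (y * a) b : ℂ)) * a / (normSq a : ℂ) := by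
    rw [← h1]; field_simp
  rw [h2]
  unfold N3_p fq
  generalize cr (y * a) b = c
  generalize dt (y * a) b = d
  push_cast
  field_simp
  have hI : I ^ 2 = -1 := I_sq
  linear_combination (-(c : ℂ)) * hI

theorem RS.clock {T : ℝ} {a b y : ℝ → ℂ} (h : RS T a b y) (hT : T ≤ 105 / 100) :
    ∃ φ σ : ℝ → ℝ, Clk T a b y φ σ := by
  obtain ⟨ca, cb, cy⟩ := N3_conts h
  have hfc := N3_fq_cont h
  have hpc := N3_p_cont h
  set F : ℝ → ℝ := fun τ => fq (a τ) (b τ) (y τ) with hF
  set p : ℝ → ℝ := fun τ => N3_p (a τ) (b τ) (y τ) with hp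
  set φ : ℝ → ℝ := fun τ => arg (a 0) + ∫ s in (0 : ℝ)..τ, F s with hφ
  set P : ℝ → ℝ := fun τ => ∫ s in (0 : ℝ)..τ, p s with hP
  have dφ : ∀ τ, HasDerivAt φ (F τ) τ := fun τ =>
    (intervalIntegral.integral_hasDerivAt_right (hfc.intervalIntegrable _ _)
      (hfc.stronglyMeasurableAtFilter _ _) hfc.continuousAt).const_add _
  have dP : ∀ τ, HasDerivAt P (p τ) τ := fun τ =>
    intervalIntegral.integral_hasDerivAt_right (hpc.intervalIntegrable _ _)
      (hpc.stronglyMeasurableAtFilter _ _) hpc.continuousAt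
  -- the function `a exp (- P - i φ)` is constant
  set E : ℝ → ℂ := fun τ => -((P τ : ℝ) : ℂ) - I * ((φ τ : ℝ) : ℂ) with hE
  have dE : ∀ τ, HasDerivAt E (-((p τ : ℝ) : ℂ) - I * ((F τ : ℝ) : ℂ)) τ := fun τ =>
    ((dP τ).ofReal_comp.neg).sub ((dφ τ).ofReal_comp.const_mul I)
  have dW : ∀ τ, HasDerivAt (fun τ => a τ * exp (E τ)) 0 τ := by
    intro τ
    have h1 := (h.ha τ).mul (dE τ).cexp
    have h2 : I * (a τ - (starRingEnd ℂ) (y τ) * b τ) * exp (E τ) +
        a τ * (exp (E τ) * (-((p τ : ℝ) : ℂ) - I * ((F τ : ℝ) : ℂ))) = 0 := by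
      rw [N3_alg (a τ) (b τ) (y τ) (N3_ne h τ)]
      ring
    rw [h2] at h1
    exact h1
  have hconst : ∀ τ, a τ * exp (E τ) = a 0 * exp (E 0) := by
    intro τ
    have hd : Differentiable ℝ (fun τ => a τ * exp (E τ)) := fun τ => (dW τ).differentiableAt
    have := is_const_of_deriv_eq_zero hd (fun τ => (dW τ).deriv) τ 0
    exact this
  have hE0 : E 0 = -(I * (arg (a 0) : ℂ)) := by
    simp only [hE, hP, hφ, intervalIntegral.integral_same, add_zero, ofReal_zero, neg_zero,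
      zero_sub]
  have ha0 : a 0 * exp (E 0) = (‖a 0‖ : ℂ) := by
    have h1 : a 0 = (‖a 0‖ : ℂ) * exp ((arg (a 0) : ℂ) * I) := (norm_mul_exp_arg_mul_I (a 0)).symm
    rw [hE0]
    nth_rewrite 1 [h1]
    rw [mul_assoc, ← exp_add]
    have : (arg (a 0) : ℂ) * I + -(I * (arg (a 0) : ℂ)) = 0 := by ring
    rw [this, exp_zero, mul_one]
  have hform : ∀ τ, a τ = ((‖a 0‖ * Real.exp (P τ) : ℝ) : ℂ) * exp (I * (φ τ : ℂ)) := by
    intro τ
    have h1 := hconst τ
    rw [ha0] at h1
    have h2 : a τ = a τ * exp (E τ) * exp (-E τ) := by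
      rw [mul_assoc, ← exp_add, add_neg_cancel, exp_zero, mul_one]
    rw [h2, h1]
    have h3 : -E τ = ((P τ : ℝ) : ℂ) + I * ((φ τ : ℝ) : ℂ) := by
      simp only [hE]; ring
    rw [h3, exp_add, ofReal_mul, ofReal_exp]
    ring
  have hnorm : ∀ τ, ‖a τ‖ = ‖a 0‖ * Real.exp (P τ) := by
    intro τ
    rw [hform τ, norm_mul, norm_real, mul_comm I, norm_exp_ofReal_mul_I, mul_one, Real.norm_eq_abs,
      abs_of_nonneg]
    exact mul_nonneg (norm_nonneg _) (Real.exp_pos _).le
  have polar : ∀ τ, a τ = (‖a τ‖ : ℂ) * exp (I * (φ τ : ℂ)) := by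
    intro τ
    rw [hnorm τ]
    exact hform τ
  -- slopes
  have slope : ∀ x z, x < z → 1113 / 10000 * (z - x) ≤ φ z - φ x ∧
      φ z - φ x ≤ 18887 / 10000 * (z - x) := by
    intro x z hxz
    obtain ⟨c, -, hc⟩ := exists_hasDerivAt_eq_slope φ F hxz
      (fun t _ => (dφ t).continuousAt.continuousWithinAt) (fun t _ => dφ t)
    have hb := h.fq_bounds c
    have hpos : 0 < z - x := sub_pos.mpr hxz
    have h1 : φ z - φ x = F c * (z - x) := by
      rw [hc]; field_simp
    rw [h1]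
    exact ⟨mul_le_mul_of_nonneg_right hb.1 hpos.le, mul_le_mul_of_nonneg_right hb.2 hpos.le⟩
  have hmono : StrictMono φ := by
    intro x z hxz
    have := (slope x z hxz).1
    have hpos : 0 < z - x := sub_pos.mpr hxz
    linarith
  have hcont : Continuous φ := continuous_iff_continuousAt.mpr fun τ => (dφ τ).continuousAt
  have htop : Filter.Tendsto φ Filter.atTop Filter.atTop := by
    have h1 : Filter.Tendsto (fun τ : ℝ => φ 0 + 1113 / 10000 * τ) Filter.atTop Filter.atTop :=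
      Filter.tendsto_atTop_add_const_left _ _
        (Filter.tendsto_id.const_mul_atTop (by norm_num))
    refine Filter.tendsto_atTop_mono' _ ?_ h1
    filter_upwards [Filter.eventually_gt_atTop (0 : ℝ)] with τ hτ
    have := (slope 0 τ hτ).1
    linarith
  have hbot : Filter.Tendsto φ Filter.atBot Filter.atBot := by
    have h1 : Filter.Tendsto (fun τ : ℝ => φ 0 + 1113 / 10000 * τ) Filter.atBot Filter.atBot :=
      Filter.tendsto_atBot_add_const_left _ _
        (Filter.tendsto_id.const_mul_atBot (by norm_num))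
    refine Filter.tendsto_atBot_mono' _ ?_ h1
    filter_upwards [Filter.eventually_lt_atBot (0 : ℝ)] with τ hτ
    have := (slope τ 0 hτ).1
    linarith
  have hsurj : Function.Surjective φ := hcont.surjective htop hbot
  let e : ℝ ≃o ℝ := hmono.orderIsoOfSurjective φ hsurj
  have hps : ∀ s, φ (e.symm s) = s := fun s => e.apply_symm_apply s
  have hsp : ∀ τ, e.symm (φ τ) = τ := fun τ => e.symm_apply_apply τ
  have phiT : ∀ τ, φ (τ + T) = φ τ + Real.pi / 3 := by
    intro τ
    have h1 := polar (τ + T)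
    rw [h.pa τ, norm_mul, norm_ze, one_mul] at h1
    have h2 := polar τ
    have hne : (‖a τ‖ : ℂ) ≠ 0 := by
      exact_mod_cast (norm_pos_iff.mpr (N3_ne h τ)).ne'
    have h3 : ze * exp (I * (φ τ : ℂ)) = exp (I * (φ (τ + T) : ℂ)) := by
      have h4 : (‖a τ‖ : ℂ) * (ze * exp (I * (φ τ : ℂ))) =
          (‖a τ‖ : ℂ) * exp (I * (φ (τ + T) : ℂ)) := by
        rw [← h1]
        nth_rewrite 2 [h2]
        ring
      exact mul_left_cancel₀ hne h4
    rw [ze_eq_exp, ← exp_add, exp_eq_exp_iff_exists_int] at h3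
    obtain ⟨n, hn⟩ := h3
    have h5 : Real.pi / 3 + φ τ = φ (τ + T) + n * (2 * Real.pi) := by
      have h6 := congrArg Complex.im hn
      simp only [add_im, mul_im, ofReal_im, ofReal_re, I_im, I_re, mul_one, mul_zero, add_zero,
        zero_mul, one_mul, zero_add, intCast_re, intCast_im, mul_re, sub_zero, sub_self, re_ofNat,
        im_ofNat] at h6
      linarith
    have h7 := slope τ (τ + T) (by linarith [h.Tpos])
    have hTp := h.Tpos
    have hpi := Real.pi_gt_three
    have hpi' := Real.pi_le_four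
    have h8 : (n : ℝ) < 1 := by
      by_contra hcon
      push Not at hcon
      nlinarith
    have h9 : (-1 : ℝ) < n := by
      by_contra hcon
      push Not at hcon
      nlinarith
    have h10 : n = 0 := by
      have a1 : n < 1 := by exact_mod_cast h8
      have a2 : -1 < n := by exact_mod_cast h9
      omega
    rw [h10] at h5
    push_cast at h5
    linarith
  refine ⟨φ, e.symm, dφ, polar, phiT, hsp, hps, ?_, ?_⟩
  · intro s
    have hb := h.fq_bounds (e.symm s)
    have hne : F (e.symm s) ≠ 0 := by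
      have : 0 < F (e.symm s) := by
        show 0 < fq _ _ _
        linarith [hb.1]
      exact this.ne'
    have := HasDerivAt.of_local_left_inverse (e.symm.continuous.continuousAt (x := s))
      (dφ (e.symm s)) hne (Filter.Eventually.of_forall hps)
    rw [one_div]
    exact this
  · intro s
    apply hmono.injective
    rw [hps, phiT, hps]

end Pool.H61.Rh
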