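import Pool.Agent.H61.Rn.N0

/-! # N5a: bounds of `B'`

Notation `ρ = ‖a‖`, `β = ‖b‖/‖a‖ < 1`, `Y = .8887`, `q = 1 - fq = Re (ȳ ν)`, `|q| ≤ ‖y‖ β`.
`‖Bd a b y‖ = ρ ‖y - q ν‖` and `‖y - qν‖² = ‖y‖² - c q²`, `c = 2 - β²`.
`Bd_crude`: `Y² - q² ≤ (1-q)² Y²/(1-Y²)` (square completion), `Y/√(1-Y²) ≤ 1.95`.
`Bd_crude2`: `‖b‖ ≤ .6` gives `c ≥ 1.735`, `Y² - c q² ≤ (1-q)² Y²/(1 - Y²/c)`, `≤ 1.21² (1-q)²`.
`Bd_bound`: for `‖b‖ ≤ .4` (`β ≤ .3714`) `ρ ‖y - qν‖ (ρ - Y‖b‖) ≤ Y (1-q)`, i.e. (`ρ²(1-β²) = 1`)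
`‖y - qν‖ (1 - Yβ) ≤ Y (1-β²)(1-q)`; squares: `f(q) = Y²(1-β²)²(1-q)² - (Y² - c q²)(1-Yβ)²` is a
convex parabola with `f(Yβ) = 0` and
`f'(Yβ) = 2 (1-Yβ) Y [c β (1-Yβ) - Y (1-β²)²] ≤ 0`, so `f ≥ 0` for `q ≤ Yβ`. -/

set_option autoImplicit false

namespace Pool.H61.Rh

open Complex MeasureTheory


private theorem N5a_data {a b y : ℂ} (h : normSq a - normSq b = 1) (hy : ‖y‖ ≤ 8887 / 10000) :
    0 < ‖a‖ ∧ ‖a‖ ^ 2 = 1 + ‖b‖ ^ 2 ∧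
    ‖Bd a b y‖ ^ 2 ≤ ‖a‖ ^ 2 * (8887 / 10000) ^ 2 - 2 * (1 - fq a b y) ^ 2 * ‖a‖ ^ 2 +
      (1 - fq a b y) ^ 2 * ‖b‖ ^ 2 ∧
    (1 - fq a b y) * ‖a‖ ≤ 8887 / 10000 * ‖b‖ := by
  have hb0 : 0 ≤ normSq b := normSq_nonneg b
  have ha1 : 0 < normSq a := by linarith
  have ha0 : a ≠ 0 := normSq_pos.1 ha1
  have hap : 0 < ‖a‖ := norm_pos_iff.2 ha0
  have hsa : normSq a = ‖a‖ ^ 2 := normSq_eq_norm_sq a
  have hsb : normSq b = ‖b‖ ^ 2 := normSq_eq_norm_sq b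
  have hsy : normSq y = ‖y‖ ^ 2 := normSq_eq_norm_sq y
  have hdt : dt (y * a) b = (1 - fq a b y) * normSq a := by
    unfold fq
    field_simp
    ring
  refine ⟨hap, by rw [← hsa, ← hsb]; linarith, ?_, ?_⟩
  · obtain ⟨q, hq⟩ : ∃ q, q = 1 - fq a b y := ⟨_, rfl⟩
    have h1 : ‖Bd a b y‖ = ‖a * y - (q : ℂ) * b‖ := by
      unfold Bd
      rw [← hq, norm_mul, norm_mul, norm_div, norm_I]
      have h2 : ‖((‖a‖ : ℝ) : ℂ)‖ = ‖a‖ := by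
        rw [norm_real, norm_norm]
      rw [h2, div_self hap.ne', one_mul, one_mul]
    have h2 : normSq (a * y - (q : ℂ) * b) =
        normSq a * normSq y - 2 * q * dt (y * a) b + q ^ 2 * normSq b := by
      simp only [normSq_apply, dt, sub_re, sub_im, mul_re, mul_im, ofReal_re, ofReal_im]
      ring
    rw [h1, ← normSq_eq_norm_sq, h2, hdt, ← hq, hsa, hsb, hsy]
    have h3 : ‖y‖ ^ 2 ≤ (8887 / 10000) ^ 2 := pow_le_pow_left₀ (norm_nonneg y) hy 2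
    have h4 := mul_le_mul_of_nonneg_left h3 (sq_nonneg ‖a‖)
    nlinarith [h4]
  · have h1 : dt (y * a) b ≤ ‖y‖ * ‖a‖ * ‖b‖ := by
      rw [dt_eq_re, ← norm_mul]
      refine (re_le_norm _).trans ?_
      rw [norm_mul, RCLike.norm_conj]
    rw [hdt, hsa] at h1
    have h2 : (1 - fq a b y) * ‖a‖ * ‖a‖ ≤ 8887 / 10000 * ‖b‖ * ‖a‖ := by
      calc (1 - fq a b y) * ‖a‖ * ‖a‖ = (1 - fq a b y) * ‖a‖ ^ 2 := by ring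
        _ ≤ ‖y‖ * ‖a‖ * ‖b‖ := h1
        _ ≤ 8887 / 10000 * ‖a‖ * ‖b‖ := by gcongr
        _ = 8887 / 10000 * ‖b‖ * ‖a‖ := by ring
    exact le_of_mul_le_mul_right h2 hap

private theorem N5a_fq_pos {a b y : ℂ} (h : normSq a - normSq b = 1) (hy : ‖y‖ ≤ 8887 / 10000) :
    0 < fq a b y := by
  obtain ⟨h1, h2, -, h4⟩ := N5a_data h hy
  have h5 : ‖b‖ ≤ ‖a‖ := by
    refine (pow_le_pow_iff_left₀ (norm_nonneg b) h1.le (two_ne_zero)).1 ?_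
    rw [h2]
    linarith
  by_contra hc
  push Not at hc
  have h6 : ‖a‖ ≤ (1 - fq a b y) * ‖a‖ := by
    nlinarith
  nlinarith

theorem Bd_crude {a b y : ℂ} (h : normSq a - normSq b = 1) (hy : ‖y‖ ≤ 8887 / 10000) :
    ‖Bd a b y‖ ≤ 195 / 100 * ‖a‖ * fq a b y := by
  obtain ⟨h1, h2, h3, h4⟩ := N5a_data h hy
  have h5 := N5a_fq_pos h hy
  obtain ⟨f, hf⟩ : ∃ f, f = fq a b y := ⟨_, rfl⟩
  rw [← hf] at h3 h4 h5 ⊢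
  refine (pow_le_pow_iff_left₀ (norm_nonneg _) (by positivity) (two_ne_zero)).1 ?_
  have h6 : (1 - f) ^ 2 * ‖b‖ ^ 2 ≤ (1 - f) ^ 2 * ‖a‖ ^ 2 := by
    refine mul_le_mul_of_nonneg_left ?_ (sq_nonneg _)
    rw [h2]
    linarith
  have h7 : (8887 / 10000 : ℝ) ^ 2 - (1 - f) ^ 2 ≤ (195 / 100) ^ 2 * f ^ 2 := by
    nlinarith [sq_nonneg (f - 1 / (1 + (195 / 100 : ℝ) ^ 2))]
  have h8 := mul_le_mul_of_nonneg_left h7 (sq_nonneg ‖a‖)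
  nlinarith

theorem Bd_crude2 {a b y : ℂ} (h : normSq a - normSq b = 1) (hy : ‖y‖ ≤ 8887 / 10000)
    (hb : ‖b‖ ≤ 6 / 10) : ‖Bd a b y‖ ≤ 121 / 100 * ‖a‖ * fq a b y := by
  obtain ⟨h1, h2, h3, h4⟩ := N5a_data h hy
  have h5 := N5a_fq_pos h hy
  obtain ⟨f, hf⟩ : ∃ f, f = fq a b y := ⟨_, rfl⟩
  rw [← hf] at h3 h4 h5 ⊢
  refine (pow_le_pow_iff_left₀ (norm_nonneg _) (by positivity) (two_ne_zero)).1 ?_
  have hb2 : ‖b‖ ^ 2 ≤ (6 / 10) ^ 2 := pow_le_pow_left₀ (norm_nonneg b) hb 2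
  have h6 : (1 - f) ^ 2 * ‖b‖ ^ 2 ≤ (1 - f) ^ 2 * (9 / 34 * ‖a‖ ^ 2) := by
    refine mul_le_mul_of_nonneg_left ?_ (sq_nonneg _)
    rw [h2]
    linarith
  have h7 : (8887 / 10000 : ℝ) ^ 2 - (2 - 9 / 34) * (1 - f) ^ 2 ≤ (121 / 100) ^ 2 * f ^ 2 := by
    nlinarith [sq_nonneg (f - (2 - 9 / 34) / ((2 - 9 / 34) + (121 / 100 : ℝ) ^ 2))]
  have h8 := mul_le_mul_of_nonneg_left h7 (sq_nonneg ‖a‖)
  nlinarith

theorem Bd_bound {a b y : ℂ} (h : normSq a - normSq b = 1) (hy : ‖y‖ ≤ 8887 / 10000)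
    (hb : ‖b‖ ≤ 4 / 10) :
    ‖Bd a b y‖ * (‖a‖ - 8887 / 10000 * ‖b‖) ≤ 8887 / 10000 * fq a b y := by
  obtain ⟨h1, h2, h3, h4⟩ := N5a_data h hy
  have h5 := N5a_fq_pos h hy
  obtain ⟨f, hf⟩ : ∃ f, f = fq a b y := ⟨_, rfl⟩
  rw [← hf] at h3 h4 h5 ⊢
  have hb2 : ‖b‖ ^ 2 ≤ (4 / 10) ^ 2 := pow_le_pow_left₀ (norm_nonneg b) hb 2
  obtain ⟨β, hβ⟩ : ∃ β, β = ‖b‖ / ‖a‖ := ⟨_, rfl⟩
  have hbβ : ‖b‖ = β * ‖a‖ := by rw [hβ, div_mul_cancel₀ _ h1.ne']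
  have hβ0 : 0 ≤ β := by rw [hβ]; positivity
  have hρ : ‖a‖ ^ 2 * (1 - β ^ 2) = 1 := by
    have : ‖b‖ ^ 2 = β ^ 2 * ‖a‖ ^ 2 := by rw [hbβ]; ring
    rw [this] at h2
    linarith
  have hβ1 : β ≤ 3714 / 10000 := by
    have h6 : β ^ 2 * ‖a‖ ^ 2 ≤ (4 / 10) ^ 2 := by
      have : ‖b‖ ^ 2 = β ^ 2 * ‖a‖ ^ 2 := by rw [hbβ]; ring
      rw [← this]
      exact hb2
    have h7 : β ^ 2 ≤ (3714 / 10000) ^ 2 := by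
      have hpos : 0 < ‖a‖ ^ 2 := by positivity
      have h8 : ‖a‖ ^ 2 ≤ 1 + (4 / 10) ^ 2 := by rw [h2]; linarith
      have h9 : 1 - β ^ 2 ≥ 1 / (1 + (4 / 10) ^ 2) := by
        by_contra hc
        push Not at hc
        have hb3 : 0 ≤ β ^ 2 := sq_nonneg β
        have : ‖a‖ ^ 2 * (1 - β ^ 2) < 1 := by
          rcases le_or_gt (1 - β ^ 2) 0 with h0 | h0
          · have := mul_nonpos_of_nonneg_of_nonpos hpos.le h0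
            linarith
          · calc ‖a‖ ^ 2 * (1 - β ^ 2) ≤ (1 + (4 / 10) ^ 2) * (1 - β ^ 2) := by gcongr
              _ < (1 + (4 / 10) ^ 2) * (1 / (1 + (4 / 10) ^ 2)) := by gcongr
              _ = 1 := by norm_num
        linarith
      norm_num at h9 ⊢
      linarith
    exact (pow_le_pow_iff_left₀ hβ0 (by norm_num) (two_ne_zero)).1 h7
  have hq : 1 - f ≤ 8887 / 10000 * β := by
    rw [hbβ] at h4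
    refine le_of_mul_le_mul_right ?_ h1
    linarith
  have hpos : 0 ≤ ‖a‖ - 8887 / 10000 * ‖b‖ := by
    rw [hbβ]
    nlinarith
  refine (pow_le_pow_iff_left₀ (mul_nonneg (norm_nonneg _) hpos) (by positivity)
    (two_ne_zero)).1 ?_
  have hB : ‖Bd a b y‖ ^ 2 ≤ ‖a‖ ^ 2 * ((8887 / 10000) ^ 2 - (2 - β ^ 2) * (1 - f) ^ 2) := by
    refine h3.trans (le_of_eq ?_)
    rw [hbβ]
    ring
  have key : ((8887 / 10000) ^ 2 - (2 - β ^ 2) * (1 - f) ^ 2) * (1 - 8887 / 10000 * β) ^ 2 ≤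
      (8887 / 10000) ^ 2 * (1 - β ^ 2) ^ 2 * f ^ 2 := by
    obtain ⟨Y, hY⟩ : ∃ Y : ℝ, Y = 8887 / 10000 := ⟨_, rfl⟩
    rw [← hY] at hq ⊢
    have e : Y ^ 2 * (1 - β ^ 2) ^ 2 * f ^ 2 -
        (Y ^ 2 - (2 - β ^ 2) * (1 - f) ^ 2) * (1 - Y * β) ^ 2 =
        (Y ^ 2 * (1 - β ^ 2) ^ 2 + (2 - β ^ 2) * (1 - Y * β) ^ 2) * (Y * β - (1 - f)) ^ 2 +
        2 * (1 - Y * β) * Y * (Y * (1 - β ^ 2) ^ 2 - (2 - β ^ 2) * β * (1 - Y * β)) *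
          (Y * β - (1 - f)) := by ring
    have h6 : 0 ≤ Y * β - (1 - f) := by linarith
    have h7 : 0 ≤ 1 - Y * β := by rw [hY]; linarith
    have h8 : 0 ≤ 2 - β ^ 2 := by nlinarith
    have h9 : 0 ≤ Y * (1 - β ^ 2) ^ 2 - (2 - β ^ 2) * β * (1 - Y * β) := by
      have i1 : β ^ 2 ≤ (3714 / 10000) ^ 2 := pow_le_pow_left₀ hβ0 hβ1 2
      have i2 : (1 - (3714 / 10000) ^ 2) ^ 2 ≤ (1 - β ^ 2) ^ 2 :=
        pow_le_pow_left₀ (by norm_num) (by linarith) 2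
      have i3 : (2 - β ^ 2) * β * (1 - Y * β) ≤ 2 * β * (1 - Y * β) := by
        have := mul_nonneg (mul_nonneg (sq_nonneg β) hβ0) h7
        nlinarith
      have i4 : 2 * β * (1 - Y * β) ≤ 6 / 10 := by
        rw [hY]
        nlinarith
      have i5 : 6 / 10 ≤ Y * (1 - β ^ 2) ^ 2 := by
        rw [hY]
        norm_num at i2 ⊢
        linarith
      linarith
    have hY0 : 0 ≤ Y := by rw [hY]; norm_num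
    have h10 : 0 ≤ (Y ^ 2 * (1 - β ^ 2) ^ 2 + (2 - β ^ 2) * (1 - Y * β) ^ 2) *
        (Y * β - (1 - f)) ^ 2 := by positivity
    have h11 : 0 ≤ 2 * (1 - Y * β) * Y * (Y * (1 - β ^ 2) ^ 2 -
        (2 - β ^ 2) * β * (1 - Y * β)) * (Y * β - (1 - f)) := by positivity
    linarith
  calc (‖Bd a b y‖ * (‖a‖ - 8887 / 10000 * ‖b‖)) ^ 2
      = ‖Bd a b y‖ ^ 2 * (‖a‖ ^ 2 * (1 - 8887 / 10000 * β) ^ 2) := by rw [hbβ]; ring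
    _ ≤ ‖a‖ ^ 2 * ((8887 / 10000) ^ 2 - (2 - β ^ 2) * (1 - f) ^ 2) *
        (‖a‖ ^ 2 * (1 - 8887 / 10000 * β) ^ 2) := by gcongr
    _ = (‖a‖ ^ 2) ^ 2 * (((8887 / 10000) ^ 2 - (2 - β ^ 2) * (1 - f) ^ 2) *
        (1 - 8887 / 10000 * β) ^ 2) := by ring
    _ ≤ (‖a‖ ^ 2) ^ 2 * ((8887 / 10000) ^ 2 * (1 - β ^ 2) ^ 2 * f ^ 2) := by gcongr
    _ = (‖a‖ ^ 2 * (1 - β ^ 2)) ^ 2 * (8887 / 10000 * f) ^ 2 := by ring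
    _ = (8887 / 10000 * f) ^ 2 := by rw [hρ]; ring

end Pool.H61.Rh
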