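import Pool.Agent.H61.Rn.N2
import Pool.Agent.H61.Rn.N3b
import Pool.Agent.H61.Rn.N5a

/-! # N5b: sup bounds in the frame `B_0 = 0`

`B s = Bf (a (σ s)) (b (σ s))`, `‖B s‖ = ‖b (σ s)‖`, period `π/3`, mean zero (`RS0.zero` and
`Clk.integral` for the real and imaginary parts of `B`).  `M = sup ‖b‖` (attained).
`mean_bound`: copy of the private lemma `F2c_mean` of Rh/F2c.lean (a periodic Lipschitz function
with mean zero is `≤ L T/4`).  So `M ≤ (π/12) sup ‖B'‖`.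
Step 1 (`Bd_crude`): `M ≤ .2618 · 1.95 √(1+M²)`, so `M ≤ .6`.
Step 2 (`Bd_crude2`): `M ≤ .2618 · 1.21 √(1+M²)`, so `M ≤ .4`.
Step 3 (`Bd_bound`): `‖B'‖ ≤ Y/(√(1+M²) - Y M)` (`x ↦ √(1+x²) - Y x` is decreasing on `[0, 1]`),
so `M (√(1+M²) - Y M) ≤ (π/12) Y ≤ .2327`; the left side is increasing in `M ≤ .4` and is `.2332` at
`M = .3`.
`RS0.R_le`: `(π/3) R = |∫ B e^{6is} ds| = |(1/6) ∫ B' e^{6is} ds| ≤ (π/3) sup ‖B'‖ / 6`,
`sup ‖B'‖ ≤ .8887/(√1.09 - .2667) ≤ 1.1434`, `R ≤ .191`.  Here `e^{6is} = (a/‖a‖)^6` at `σ s`. -/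

set_option autoImplicit false

namespace Pool.H61.Rh

open Complex MeasureTheory

private lemma N5b_mean {T L : ℝ} (hT : 0 < T) (F : ℝ → ℂ) (hc : Continuous F)
    (hper : Function.Periodic F T) (hint : ∫ τ in (0 : ℝ)..T, F τ = 0)
    (hL : ∀ s t, ‖F s - F t‖ ≤ L * |s - t|) (τ₀ : ℝ) : ‖F τ₀‖ ≤ L * T / 4 := by
  have h1 : ∫ s in (τ₀ - T / 2)..(τ₀ + T / 2), F s = 0 := by
    have := hper.intervalIntegral_add_eq (τ₀ - T / 2) 0
    rw [zero_add, hint] at this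
    rw [← this]
    congr 1
    ring
  have h2 : ∫ s in (τ₀ - T / 2)..(τ₀ + T / 2), (F τ₀ - F s) = (T : ℂ) * F τ₀ := by
    rw [intervalIntegral.integral_sub (by simp) (hc.intervalIntegrable _ _), h1,
      intervalIntegral.integral_const, sub_zero]
    rw [show τ₀ + T / 2 - (τ₀ - T / 2) = T by ring, real_smul]
  have hcg : Continuous (fun s => F τ₀ - F s) := continuous_const.sub hc
  have h3 : ∫ s in (τ₀ - T / 2)..(τ₀ + T / 2), (F τ₀ - F s)
      = (∫ s in (τ₀ - T / 2)..τ₀, (F τ₀ - F s)) + ∫ s in τ₀..(τ₀ + T / 2), (F τ₀ - F s) := by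
    rw [intervalIntegral.integral_add_adjacent_intervals (hcg.intervalIntegrable _ _)
      (hcg.intervalIntegrable _ _)]
  have h4 : ‖∫ s in (τ₀ - T / 2)..τ₀, (F τ₀ - F s)‖ ≤ L * T ^ 2 / 8 := by
    have hb : ‖∫ s in (τ₀ - T / 2)..τ₀, (F τ₀ - F s)‖
        ≤ ∫ s in (τ₀ - T / 2)..τ₀, L * (τ₀ - s) := by
      refine intervalIntegral.norm_integral_le_of_norm_le (by linarith) ?_ ?_
      · refine Filter.Eventually.of_forall (fun s hs => ?_)
        have := hL τ₀ s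
        rwa [abs_of_nonneg (by linarith [hs.2])] at this
      · exact (by fun_prop : Continuous fun s : ℝ => L * (τ₀ - s)).intervalIntegrable _ _
    refine hb.trans (le_of_eq ?_)
    rw [intervalIntegral.integral_const_mul, intervalIntegral.integral_sub (by simp) (by simp),
      intervalIntegral.integral_const, integral_id, smul_eq_mul]
    ring
  have h5 : ‖∫ s in τ₀..(τ₀ + T / 2), (F τ₀ - F s)‖ ≤ L * T ^ 2 / 8 := by
    have hb : ‖∫ s in τ₀..(τ₀ + T / 2), (F τ₀ - F s)‖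
        ≤ ∫ s in τ₀..(τ₀ + T / 2), L * (s - τ₀) := by
      refine intervalIntegral.norm_integral_le_of_norm_le (by linarith) ?_ ?_
      · refine Filter.Eventually.of_forall (fun s hs => ?_)
        have := hL τ₀ s
        rwa [abs_sub_comm, abs_of_nonneg (by linarith [hs.1])] at this
      · exact (by fun_prop : Continuous fun s : ℝ => L * (s - τ₀)).intervalIntegrable _ _
    refine hb.trans (le_of_eq ?_)
    rw [intervalIntegral.integral_const_mul, intervalIntegral.integral_sub (by simp) (by simp),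
      intervalIntegral.integral_const, integral_id, smul_eq_mul]
    ring
  have h6 : T * ‖F τ₀‖ ≤ L * T ^ 2 / 4 := by
    have : T * ‖F τ₀‖ = ‖(T : ℂ) * F τ₀‖ := by
      rw [norm_mul, norm_real, Real.norm_of_nonneg hT.le]
    rw [this, ← h2, h3]
    refine (norm_add_le _ _).trans ?_
    linarith
  have h7 : T * ‖F τ₀‖ ≤ T * (L * T / 4) := by
    refine h6.trans (le_of_eq ?_); ring
  exact le_of_mul_le_mul_left h7 hT

section aux

variable {T : ℝ} {a b y : ℝ → ℂ}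

private lemma N5b_ane (h : RS T a b y) (τ : ℝ) : a τ ≠ 0 := by
  intro h0
  have h1 := h.hn τ
  rw [h0, map_zero] at h1
  have := normSq_nonneg (b τ)
  linarith

private lemma N5b_na (h : RS T a b y) (τ : ℝ) : ‖a τ‖ ^ 2 = 1 + ‖b τ‖ ^ 2 := by
  have h1 := h.hn τ
  rw [normSq_eq_norm_sq, normSq_eq_norm_sq] at h1
  linarith

private lemma N5b_a1 (h : RS T a b y) (τ : ℝ) : 1 ≤ ‖a τ‖ := by
  have h1 := N5b_na h τ
  nlinarith [sq_nonneg ‖b τ‖, norm_nonneg (a τ)]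

private lemma N5b_ca (h : RS T a b y) : Continuous a :=
  continuous_iff_continuousAt.2 fun τ => (h.ha τ).continuousAt

private lemma N5b_cb (h : RS T a b y) : Continuous b :=
  continuous_iff_continuousAt.2 fun τ => (h.hb τ).continuousAt

private lemma N5b_cy (h : RS T a b y) : Continuous y := by
  obtain ⟨C, hC⟩ := h.ylip
  exact hC.continuous

private lemma N5b_cfq (h : RS T a b y) : Continuous fun τ => fq (a τ) (b τ) (y τ) := by
  have ha := N5b_ca h
  have hb := N5b_cb h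
  have hy := N5b_cy h
  unfold fq dt
  refine continuous_const.sub (Continuous.div ?_ ?_ fun τ => ?_)
  · fun_prop
  · exact continuous_normSq.comp ha
  · exact (normSq_pos.2 (N5b_ane h τ)).ne'

private lemma N5b_cBf (h : RS T a b y) : Continuous fun τ => Bf (a τ) (b τ) := by
  have ha := N5b_ca h
  have hb := N5b_cb h
  unfold Bf
  refine Continuous.div (ha.mul hb) (continuous_ofReal.comp ha.norm) fun τ => ?_
  exact ofReal_ne_zero.2 (norm_ne_zero_iff.2 (N5b_ane h τ))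

private lemma N5b_normBf (z w : ℂ) (hz : z ≠ 0) : ‖Bf z w‖ = ‖w‖ := by
  unfold Bf
  rw [norm_div, norm_mul, norm_real, Real.norm_of_nonneg (norm_nonneg z)]
  exact mul_div_cancel_left₀ _ (norm_ne_zero_iff.2 hz)

private lemma N5b_max (h : RS T a b y) : ∃ τ₀, ∀ τ, ‖b τ‖ ≤ ‖b τ₀‖ := by
  have hb := (N5b_cb h).norm
  have hper : Function.Periodic (fun τ => ‖b τ‖) T := by
    intro τ
    show ‖b (τ + T)‖ = ‖b τ‖
    have hz : ‖(starRingEnd ℂ) ze‖ = 1 := by
      rw [RCLike.norm_conj]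
      have h1 : ‖ze‖ ^ 2 = 1 := by
        rw [← normSq_eq_norm_sq, normSq_apply]
        show (1 / 2 : ℝ) * (1 / 2) + s3 / 2 * (s3 / 2) = 1
        have := s3_mul
        linarith
      have h2 : 0 ≤ ‖ze‖ := norm_nonneg _
      nlinarith
    rw [h.pb, norm_mul, hz, one_mul]
  obtain ⟨τ₀, -, h0⟩ := (isCompact_Icc (a := (0 : ℝ)) (b := T)).exists_isMaxOn
    (Set.nonempty_Icc.2 h.Tpos.le) hb.continuousOn
  refine ⟨τ₀, fun τ => ?_⟩
  obtain ⟨u, hu, hu'⟩ := hper.exists_mem_Ico₀ h.Tpos τ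
  have h1 := h0 (Set.Ico_subset_Icc_self hu)
  have h2 : ‖b τ‖ = ‖b u‖ := hu'
  rw [h2]
  exact h1

variable {φ σ : ℝ → ℝ}

private lemma N5b_cphi (c : Clk T a b y φ σ) : Continuous φ :=
  continuous_iff_continuousAt.2 fun τ => (c.dphi τ).continuousAt

private lemma N5b_csig (c : Clk T a b y φ σ) : Continuous σ :=
  continuous_iff_continuousAt.2 fun τ => (c.dsig τ).continuousAt

private lemma N5b_int (h : RS T a b y) (c : Clk T a b y φ σ) (F : ℝ → ℂ) (hF : Continuous F)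
    (hp : ∀ s, F (s + Real.pi / 3) = F s) :
    ∫ τ in (0 : ℝ)..T, (fq (a τ) (b τ) (y τ) : ℂ) * F (φ τ) =
      ∫ s in (0 : ℝ)..(Real.pi / 3), F s := by
  have hc : Continuous fun τ => (fq (a τ) (b τ) (y τ) : ℂ) * F (φ τ) :=
    (continuous_ofReal.comp (N5b_cfq h)).mul (hF.comp (N5b_cphi c))
  have i1 := hc.intervalIntegrable (μ := volume) 0 T
  have i2 := hF.intervalIntegrable (μ := volume) 0 (Real.pi / 3)
  have r1 := reCLM.intervalIntegral_comp_comm i1
  have r2 := reCLM.intervalIntegral_comp_comm i2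
  have m1 := imCLM.intervalIntegral_comp_comm i1
  have m2 := imCLM.intervalIntegral_comp_comm i2
  simp only [reCLM_apply, imCLM_apply] at r1 r2 m1 m2
  apply Complex.ext
  · rw [← r1, ← r2, ← Clk.integral h c (fun s => (F s).re) (continuous_re.comp hF)
      (fun s => by rw [hp s])]
    refine intervalIntegral.integral_congr fun τ _ => ?_
    show ((fq (a τ) (b τ) (y τ) : ℂ) * F (φ τ)).re = (F (φ τ)).re * fq (a τ) (b τ) (y τ)
    rw [re_ofReal_mul, mul_comm]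
  · rw [← m1, ← m2, ← Clk.integral h c (fun s => (F s).im) (continuous_im.comp hF)
      (fun s => by rw [hp s])]
    refine intervalIntegral.integral_congr fun τ _ => ?_
    show ((fq (a τ) (b τ) (y τ) : ℂ) * F (φ τ)).im = (F (φ τ)).im * fq (a τ) (b τ) (y τ)
    rw [im_ofReal_mul, mul_comm]

private lemma N5b_cB (h : RS T a b y) (c : Clk T a b y φ σ) :
    Continuous fun s => Bf (a (σ s)) (b (σ s)) := (N5b_cBf h).comp (N5b_csig c)

private lemma N5b_dB (h : RS T a b y) {L : ℝ}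
    (hL : ∀ τ, ‖Bd (a τ) (b τ) (y τ)‖ ≤ L * fq (a τ) (b τ) (y τ)) (s : ℝ) :
    ‖Bd (a (σ s)) (b (σ s)) (y (σ s)) / (fq (a (σ s)) (b (σ s)) (y (σ s)) : ℂ)‖ ≤ L := by
  have h1 := (h.fq_bounds (σ s)).1
  have h2 : 0 < fq (a (σ s)) (b (σ s)) (y (σ s)) := lt_of_lt_of_le (by norm_num) h1
  rw [norm_div, norm_real, Real.norm_of_nonneg h2.le, div_le_iff₀ h2]
  exact hL (σ s)

private lemma N5b_sup (h : RS T a b y) (c : Clk T a b y φ σ)
    (hz : ∫ τ in (0 : ℝ)..T, (fq (a τ) (b τ) (y τ) : ℂ) * Bf (a τ) (b τ) = 0) {L : ℝ}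
    (hL : ∀ τ, ‖Bd (a τ) (b τ) (y τ)‖ ≤ L * fq (a τ) (b τ) (y τ)) (τ : ℝ) :
    ‖b τ‖ ≤ L * (Real.pi / 3) / 4 := by
  have hP : 0 < Real.pi / 3 := by positivity
  have h1 : ∫ s in (0 : ℝ)..(Real.pi / 3), Bf (a (σ s)) (b (σ s)) = 0 := by
    rw [← N5b_int h c _ (N5b_cB h c) (c.B_per h), ← hz]
    refine intervalIntegral.integral_congr fun τ _ => ?_
    show (fq (a τ) (b τ) (y τ) : ℂ) * Bf (a (σ (φ τ))) (b (σ (φ τ))) = _
    rw [c.sp]
  have h2 : ∀ s t, ‖Bf (a (σ s)) (b (σ s)) - Bf (a (σ t)) (b (σ t))‖ ≤ L * |s - t| := by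
    intro s t
    have h3 := (convex_univ (𝕜 := ℝ) (E := ℝ)).norm_image_sub_le_of_norm_hasDerivWithin_le
      (f := fun s => Bf (a (σ s)) (b (σ s)))
      (f' := fun s => Bd (a (σ s)) (b (σ s)) (y (σ s)) / (fq (a (σ s)) (b (σ s)) (y (σ s)) : ℂ))
      (C := L) (fun s _ => (c.B_deriv h s).hasDerivWithinAt) (fun s _ => N5b_dB h hL s)
      (Set.mem_univ t) (Set.mem_univ s)
    rwa [Real.norm_eq_abs] at h3
  have h3 := N5b_mean hP (fun s => Bf (a (σ s)) (b (σ s))) (N5b_cB h c) (c.B_per h) h1 h2 (φ τ)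
  have h4 : ‖Bf (a (σ (φ τ))) (b (σ (φ τ)))‖ = ‖b τ‖ := by
    rw [c.sp, N5b_normBf _ _ (N5b_ane h τ)]
  have h5 : ‖(fun s => Bf (a (σ s)) (b (σ s))) (φ τ)‖ = ‖b τ‖ := h4
  rwa [h5] at h3

/-- step 3, the bound of the derivative -/
private lemma N5b_step3 (h : RS T a b y) {M A : ℝ} (hM : ∀ τ, ‖b τ‖ ≤ M) (hM4 : M ≤ 4 / 10)
    (hA : 1 ≤ A) (hAM : A ^ 2 ≤ 1 + M ^ 2) (τ : ℝ) :
    ‖Bd (a τ) (b τ) (y τ)‖ ≤
      8887 / 10000 / (A - 8887 / 10000 * M) * fq (a τ) (b τ) (y τ) := by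
  have hb0 : 0 ≤ ‖b τ‖ := norm_nonneg _
  have hbM := hM τ
  have hpos : 0 < A - 8887 / 10000 * M := by linarith
  have h1 := Bd_bound (h.hn τ) (dom_norm (h.dom τ)) (hbM.trans hM4)
  have h2 : A - 8887 / 10000 * M ≤ ‖a τ‖ - 8887 / 10000 * ‖b τ‖ := by
    have h3 := N5b_na h τ
    have h4 := N5b_a1 h τ
    by_cases h5 : A ≤ ‖a τ‖
    · nlinarith
    · push Not at h5
      have h6 : (A - ‖a τ‖) * (A + ‖a τ‖) ≤ (M - ‖b τ‖) * (M + ‖b τ‖) := by nlinarith
      have h7 : (M - ‖b τ‖) * (M + ‖b τ‖) ≤ (M - ‖b τ‖) * (8 / 10) :=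
        mul_le_mul_of_nonneg_left (by linarith) (by linarith)
      have h8 : (A - ‖a τ‖) * 2 ≤ (A - ‖a τ‖) * (A + ‖a τ‖) :=
        mul_le_mul_of_nonneg_left (by linarith) (by linarith)
      linarith
  have h3 : ‖Bd (a τ) (b τ) (y τ)‖ * (A - 8887 / 10000 * M) ≤
      8887 / 10000 * fq (a τ) (b τ) (y τ) :=
    (mul_le_mul_of_nonneg_left h2 (norm_nonneg _)).trans h1
  rw [div_mul_eq_mul_div, le_div_iff₀ hpos]
  exact h3

end aux

theorem RS0.b_le {T R : ℝ} {a b y : ℝ → ℂ} (h : RS0 T R a b y) (hT : T ≤ 105 / 100) (τ : ℝ) :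
    ‖b τ‖ ≤ 3 / 10 := by
  obtain ⟨φ, σ, c⟩ := h.rs.clock hT
  obtain ⟨τ₀, h0⟩ := N5b_max h.rs
  set M : ℝ := ‖b τ₀‖ with hMd
  have hM0 : 0 ≤ M := norm_nonneg _
  have hpi : Real.pi < 3.1416 := Real.pi_lt_d4
  have hpi0 := Real.pi_pos
  obtain ⟨A, hA0, hA⟩ : ∃ A : ℝ, 0 ≤ A ∧ A ^ 2 = 1 + M ^ 2 :=
    ⟨Real.sqrt (1 + M ^ 2), Real.sqrt_nonneg _, Real.sq_sqrt (by positivity)⟩
  have hA1 : 1 ≤ A := by nlinarith
  have haA : ∀ τ, ‖a τ‖ ≤ A := by
    intro τ
    have h1 := N5b_na h.rs τ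
    have h2 := h0 τ
    have h3 : ‖b τ‖ ^ 2 ≤ M ^ 2 := pow_le_pow_left₀ (norm_nonneg _) h2 2
    exact (pow_le_pow_iff_left₀ (norm_nonneg _) hA0 two_ne_zero).1 (by rw [h1, hA]; linarith)
  have hf : ∀ τ, 0 < fq (a τ) (b τ) (y τ) := fun τ =>
    lt_of_lt_of_le (by norm_num) (h.rs.fq_bounds τ).1
  have hy : ∀ τ, ‖y τ‖ ≤ 8887 / 10000 := fun τ => dom_norm (h.rs.dom τ)
  -- step 1
  have s1 : M ≤ 6 / 10 := by
    have h1 := N5b_sup h.rs c h.zero (L := 195 / 100 * A) (fun τ => by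
      refine (Bd_crude (h.rs.hn τ) (hy τ)).trans ?_
      exact mul_le_mul_of_nonneg_right (mul_le_mul_of_nonneg_left (haA τ) (by norm_num))
        (hf τ).le) τ₀
    have h2 : M ≤ 5106 / 10000 * A := by
      refine h1.trans ?_
      have : 195 / 100 * A * (Real.pi / 3) / 4 = (195 / 1200 * Real.pi) * A := by ring
      rw [this]
      exact mul_le_mul_of_nonneg_right (by linarith) hA0
    have h3 : M ^ 2 ≤ (5106 / 10000 * A) ^ 2 := pow_le_pow_left₀ hM0 h2 2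
    rw [mul_pow, hA] at h3
    nlinarith
  -- step 2
  have s2 : M ≤ 4 / 10 := by
    have h1 := N5b_sup h.rs c h.zero (L := 121 / 100 * A) (fun τ => by
      refine (Bd_crude2 (h.rs.hn τ) (hy τ) ((h0 τ).trans s1)).trans ?_
      exact mul_le_mul_of_nonneg_right (mul_le_mul_of_nonneg_left (haA τ) (by norm_num))
        (hf τ).le) τ₀
    have h2 : M ≤ 3168 / 10000 * A := by
      refine h1.trans ?_
      have : 121 / 100 * A * (Real.pi / 3) / 4 = (121 / 1200 * Real.pi) * A := by ring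
      rw [this]
      exact mul_le_mul_of_nonneg_right (by linarith) hA0
    have h3 : M ^ 2 ≤ (3168 / 10000 * A) ^ 2 := pow_le_pow_left₀ hM0 h2 2
    rw [mul_pow, hA] at h3
    nlinarith
  -- step 3
  have hpos : 0 < A - 8887 / 10000 * M := by linarith
  have h1 := N5b_sup h.rs c h.zero (N5b_step3 h.rs h0 s2 hA1 hA.le) τ₀
  have h2 : M * (A - 8887 / 10000 * M) ≤ 8887 / 10000 * (Real.pi / 12) := by
    have h3 : 8887 / 10000 / (A - 8887 / 10000 * M) * (Real.pi / 3) / 4 =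
        8887 / 10000 * (Real.pi / 12) / (A - 8887 / 10000 * M) := by
      field_simp
      ring
    rw [h3, le_div_iff₀ hpos] at h1
    exact h1
  have s3' : M ≤ 3 / 10 := by
    by_contra hM3
    push Not at hM3
    have h4 : 1044 / 1000 ≤ A := by
      by_contra h5
      push Not at h5
      nlinarith
    have h5 : M * (1044 / 1000 - 8887 / 10000 * M) ≤ M * (A - 8887 / 10000 * M) :=
      mul_le_mul_of_nonneg_left (by linarith) hM0
    have h6 : 0 ≤ (M - 3 / 10) * (4 / 10 - M) := mul_nonneg (by linarith) (by linarith)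
    nlinarith
  exact (h0 τ).trans s3'

theorem RS0.R_le {T R : ℝ} {a b y : ℝ → ℂ} (h : RS0 T R a b y) (hT : T ≤ 105 / 100) :
    R ≤ 191 / 1000 := by
  obtain ⟨φ, σ, c⟩ := h.rs.clock hT
  have hP : 0 < Real.pi / 3 := by positivity
  have hb := h.b_le hT
  have hd := N5b_step3 h.rs (M := 3 / 10) (A := 1044 / 1000) hb (by norm_num) (by norm_num)
    (by norm_num)
  set L : ℝ := 8887 / 10000 / (1044 / 1000 - 8887 / 10000 * (3 / 10)) with hLd
  have hL : L ≤ 1146 / 1000 := by rw [hLd]; norm_num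
  have hdB := N5b_dB (σ := σ) h.rs hd
  let B : ℝ → ℂ := fun s => Bf (a (σ s)) (b (σ s))
  let B1 : ℝ → ℂ := fun s => Bd (a (σ s)) (b (σ s)) (y (σ s)) /
      (fq (a (σ s)) (b (σ s)) (y (σ s)) : ℂ)
  let e : ℝ → ℂ := fun s => exp (((6 * s : ℝ) : ℂ) * I)
  have hB : ∀ s, HasDerivAt B (B1 s) s := c.B_deriv h.rs
  have hBc : Continuous B := N5b_cB h.rs c
  have hB1c : Continuous B1 := c.B_cont h.rs
  have he : ∀ s, HasDerivAt e (6 * I * e s) s := by
    intro s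
    have h1 : HasDerivAt (fun s : ℝ => ((6 * s : ℝ) : ℂ) * I) (((6 * 1 : ℝ) : ℂ) * I) s :=
      (((hasDerivAt_id s).const_mul 6).ofReal_comp).mul_const I
    have h2 := h1.cexp
    have h3 : exp (((6 * s : ℝ) : ℂ) * I) * (((6 * 1 : ℝ) : ℂ) * I) = 6 * I * e s := by
      show _ = 6 * I * exp (((6 * s : ℝ) : ℂ) * I)
      push_cast
      ring
    rw [h3] at h2
    exact h2
  have hec : Continuous e := continuous_iff_continuousAt.2 fun s => (he s).continuousAt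
  have hep : ∀ s, e (s + Real.pi / 3) = e s := by
    intro s
    show exp (((6 * (s + Real.pi / 3) : ℝ) : ℂ) * I) = exp (((6 * s : ℝ) : ℂ) * I)
    have h1 : ((6 * (s + Real.pi / 3) : ℝ) : ℂ) * I =
        ((6 * s : ℝ) : ℂ) * I + 2 * Real.pi * I := by
      push_cast
      ring
    rw [h1, exp_periodic]
  have hen : ∀ s, ‖e s‖ = 1 := fun s => norm_exp_ofReal_mul_I _
  have hBp : ∀ s, B (s + Real.pi / 3) = B s := c.B_per h.rs
  -- the integral is `- (π/3) R`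
  have h1 : ∫ s in (0 : ℝ)..(Real.pi / 3), B s * e s = -(((Real.pi / 3 * R : ℝ)) : ℂ) := by
    rw [← N5b_int h.rs c (fun s => B s * e s) (hBc.mul hec) (fun s => by
      show B (s + Real.pi / 3) * e (s + Real.pi / 3) = B s * e s
      rw [hBp, hep]), ← h.one]
    refine intervalIntegral.integral_congr fun τ _ => ?_
    show (fq (a τ) (b τ) (y τ) : ℂ) * (Bf (a (σ (φ τ))) (b (σ (φ τ))) *
      exp (((6 * φ τ : ℝ) : ℂ) * I)) = (fq (a τ) (b τ) (y τ) : ℂ) * (Bf (a τ) (b τ) *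
      (a τ / (‖a τ‖ : ℂ)) ^ 6)
    have h2 : a τ / (‖a τ‖ : ℂ) = exp (I * (φ τ : ℂ)) := by
      have h3 : (‖a τ‖ : ℂ) ≠ 0 := ofReal_ne_zero.2 (norm_ne_zero_iff.2 (N5b_ane h.rs τ))
      rw [div_eq_iff h3, mul_comm]
      exact c.polar τ
    have h3 : exp (I * (φ τ : ℂ)) ^ 6 = exp (((6 * φ τ : ℝ) : ℂ) * I) := by
      rw [← exp_nat_mul]
      congr 1
      push_cast
      ring
    rw [c.sp, h2, h3]
  -- integration by parts
  have h2 : ∫ s in (0 : ℝ)..(Real.pi / 3), (B1 s * e s + B s * (6 * I * e s)) = 0 := by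
    have h3 := intervalIntegral.integral_eq_sub_of_hasDerivAt
      (a := (0 : ℝ)) (b := Real.pi / 3) (f := fun s => B s * e s)
      (f' := fun s => B1 s * e s + B s * (6 * I * e s))
      (fun s _ => (hB s).mul (he s))
      (((hB1c.mul hec).add (hBc.mul (continuous_const.mul hec))).intervalIntegrable _ _)
    rw [h3]
    have h4 := hBp 0
    have h5 := hep 0
    rw [zero_add] at h4 h5
    show B (Real.pi / 3) * e (Real.pi / 3) - B 0 * e 0 = 0
    rw [h4, h5, sub_self]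
  have h3 : ∫ s in (0 : ℝ)..(Real.pi / 3), B1 s * e s =
      -(6 * I * ∫ s in (0 : ℝ)..(Real.pi / 3), B s * e s) := by
    have h5 : ∫ s in (0 : ℝ)..(Real.pi / 3), (B1 s * e s + B s * (6 * I * e s)) =
        (∫ s in (0 : ℝ)..(Real.pi / 3), B1 s * e s) +
          ∫ s in (0 : ℝ)..(Real.pi / 3), B s * (6 * I * e s) :=
      intervalIntegral.integral_add ((hB1c.mul hec).intervalIntegrable _ _)
        ((hBc.mul (continuous_const.mul hec)).intervalIntegrable _ _)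
    rw [h5] at h2
    have h4 : ∫ s in (0 : ℝ)..(Real.pi / 3), B s * (6 * I * e s) =
        6 * I * ∫ s in (0 : ℝ)..(Real.pi / 3), B s * e s := by
      rw [← intervalIntegral.integral_const_mul]
      refine intervalIntegral.integral_congr fun s _ => ?_
      show B s * (6 * I * e s) = 6 * I * (B s * e s)
      ring
    rw [h4] at h2
    exact eq_neg_of_add_eq_zero_left h2
  have h4 : ‖∫ s in (0 : ℝ)..(Real.pi / 3), B1 s * e s‖ ≤ L * |Real.pi / 3 - 0| := by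
    refine intervalIntegral.norm_integral_le_of_norm_le_const fun s _ => ?_
    rw [norm_mul, hen, mul_one]
    exact hdB s
  rw [h3, h1, norm_neg, norm_mul, norm_mul, norm_I, norm_neg, norm_real, Real.norm_eq_abs,
    sub_zero, abs_of_nonneg hP.le, abs_of_nonneg (mul_nonneg hP.le h.Rnn)] at h4
  have h5 : ‖(6 : ℂ)‖ = 6 := by norm_num
  rw [h5] at h4
  have h6 : Real.pi / 3 * (6 * R) ≤ Real.pi / 3 * L := by linarith
  have h7 : 6 * R ≤ 1146 / 1000 := (le_of_mul_le_mul_left h6 hP).trans hL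
  clear h6 h4 hL hLd hd hdB
  linarith

end Pool.H61.Rh
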